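import Pool.Agent.H203R3.FD.Seq

open scoped InnerProductSpace TensorProduct Topology
open Filter Polynomial

set_option linter.unusedSectionVars false

namespace H203R3.FD

variable {H : Type*} [NormedAddCommGroup H] [InnerProductSpace ℂ H] [CompleteSpace H]
variable {m : ℕ} {x : Fin m → H →L[ℂ] H} {Ω : H} {i₀ : Fin m}
variable {R U : H →L[ℂ] H} {l : ℝ} {J : H}

theorem Cay.Cn_mem (h : Cay (x i₀) l R U) (hT : IsTracialTuple x Ω) (n : ℕ) :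
    Cn Ω R U n ∈ WStar x := by
  induction n with
  | zero =>
    have h0 : (0 : ℂ) • (1 : H →L[ℂ] H) ∈ WStar x := W_smul 0 W_one
    rw [zero_smul] at h0
    exact h0
  | succ n ih => exact W_add (W_mul (h.U_mem hT) ih) (W_smul _ (h.R_mem hT))

theorem star_pow_mul_pow {V : H →L[ℂ] H} (hV : star V * V = 1) (n : ℕ) :
    (star V) ^ n * V ^ n = 1 := by
  induction n with
  | zero => simp
  | succ n ih =>
    rw [pow_succ, pow_succ', mul_assoc, ← mul_assoc (star V) V, hV, one_mul, ih]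

/-- main upper bound -/
theorem Cay.bound_UU (h : Cay (x i₀) l R U) (hT : IsTracialTuple x Ω)
    (hJ : ∀ P : Poly m, ⟪J, ev x P Ω⟫_ℂ = ⟪(Ω ⊗ₜ[ℂ] Ω : H ⊗[ℂ] H), dV x Ω i₀ P⟫_ℂ)
    (k j : ℕ) (Q : Poly m) :
    ‖⟪(((U ^ k) Ω) ⊗ₜ[ℂ] ((U ^ j) Ω) : H ⊗[ℂ] H), dV x Ω i₀ Q⟫_ℂ‖ ≤ 3 * ‖J‖ * ‖ev x Q Ω‖ := by
  have hX := hT.selfAdjoint i₀
  have hs := h.adj hX
  have hUm := h.U_mem hT
  obtain ⟨p, hp1, hp2⟩ := hs.cl_pow hT j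
  set E := ev x Q with hE
  have hEm : E ∈ WStar x := ev_mem_W Q
  have e1 : ∀ n, ⟪(((U ^ k) Ω) ⊗ₜ[ℂ] (star (aeval (x i₀) (p n)) Ω) : H ⊗[ℂ] H), dV x Ω i₀ Q⟫_ℂ =
      ⟪tn Ω J R U l k, E ((aeval (x i₀) (p n)) Ω)⟫_ℂ -
        ⟪((star E ((U ^ k) Ω)) ⊗ₜ[ℂ] Ω : H ⊗[ℂ] H), D1 x Ω i₀ (p n)⟫_ℂ := by
    intro n
    have a1 := inner_evT_right hT ((U ^ k) Ω) (pf i₀ (p n)) (fdq i₀ Q)
    have a2 := dV_mul x Ω i₀ Q (pf i₀ (p n))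
    have a3 := h.inner_tn hT hJ k (Q * pf i₀ (p n))
    rw [a2, inner_add_right, a1, map_mul, mul_apply_eq_comp, ev_pf, ← dV_apply, ← D1_apply] at a3
    have a4 : ⟪(((U ^ k) Ω) ⊗ₜ[ℂ] Ω : H ⊗[ℂ] H), tm (ev x Q) 1 (D1 x Ω i₀ (p n))⟫_ℂ =
        ⟪((star E ((U ^ k) Ω)) ⊗ₜ[ℂ] Ω : H ⊗[ℂ] H), D1 x Ω i₀ (p n)⟫_ℂ := by
      have := inner_tm (star E) 1 (((U ^ k) Ω) ⊗ₜ[ℂ] Ω : H ⊗[ℂ] H) (D1 x Ω i₀ (p n))
      rw [star_star, star_one, tm_tmul, one_apply_eq_self] at this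
      exact this.symm
    rw [a4] at a3
    rw [a3]; ring
  have l1 : Tendsto (fun n => ⟪(((U ^ k) Ω) ⊗ₜ[ℂ] (star (aeval (x i₀) (p n)) Ω) : H ⊗[ℂ] H),
      dV x Ω i₀ Q⟫_ℂ) atTop
      (𝓝 ⟪(((U ^ k) Ω) ⊗ₜ[ℂ] ((U ^ j) Ω) : H ⊗[ℂ] H), dV x Ω i₀ Q⟫_ℂ) := by
    have b1 : Tendsto (fun n => star (aeval (x i₀) (p n))) atTop (𝓝 (U ^ j)) := by
      have := (continuous_star.tendsto (star U ^ j)).comp hp1
      rw [star_pow, star_star] at this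
      exact this
    have b2 := tendsto_ev b1 Ω
    have b3 : Tendsto (fun n => (((U ^ k) Ω), (star (aeval (x i₀) (p n))) Ω)) atTop
      (𝓝 (((U ^ k) Ω), ((U ^ j) Ω))) := tendsto_const_nhds.prodMk_nhds b2
    have b4 := ((TensorProduct.continuous_tmul (𝕜 := ℂ) (E := H) (F := H)).tendsto _).comp b3
    exact Filter.Tendsto.inner b4 tendsto_const_nhds
  have l2 : Tendsto (fun n => ⟪tn Ω J R U l k, E ((aeval (x i₀) (p n)) Ω)⟫_ℂ -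
        ⟪((star E ((U ^ k) Ω)) ⊗ₜ[ℂ] Ω : H ⊗[ℂ] H), D1 x Ω i₀ (p n)⟫_ℂ) atTop
      (𝓝 (⟪tn Ω J R U l k, E ((star U ^ j) Ω)⟫_ℂ -
        ⟪((star E ((U ^ k) Ω)) ⊗ₜ[ℂ] Ω : H ⊗[ℂ] H), zn Ω (star R) (star U) (-l) j⟫_ℂ)) := by
    refine Tendsto.sub ?_ (tendsto_inner_T _ hp2)
    exact (tendsto_const_nhds (x := tn Ω J R U l k)).inner
      ((E.continuous.tendsto _).comp (tendsto_ev hp1 Ω))
  simp only [e1] at l1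
  rw [tendsto_nhds_unique l1 l2, hs.inner_zn hT]
  -- first term
  have t1 : ‖⟪tn Ω J R U l k, E ((star U ^ j) Ω)⟫_ℂ‖ ≤ ‖J‖ * ‖E Ω‖ := by
    refine (norm_inner_le_norm _ _).trans ?_
    rw [h.norm_tn hT hJ]
    have : ‖E ((star U ^ j) Ω)‖ = ‖E Ω‖ := by
      refine norm_mul_unitary_vec hT hEm (W_pow (W_star hT.selfAdjoint hUm) j) ?_
      rw [star_pow, star_star]
      exact star_pow_mul_pow (h.starU_mul_U hX) j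
    rw [this]
  -- second term
  have t2 : ‖(-(2 * Complex.I * ((-l : ℝ) : ℂ))) *
      ⟪star E ((U ^ k) Ω), Cn Ω (star R) (star U) j Ω⟫_ℂ‖ ≤ 2 * ‖J‖ * ‖E Ω‖ := by
    set S : H →L[ℂ] H := (2 * Complex.I * ((-l : ℝ) : ℂ)) • Cn Ω (star R) (star U) j with hS
    have hSm : S ∈ WStar x := W_smul _ (hs.Cn_mem hT j)
    have hSn : ‖S Ω‖ ≤ 2 * ‖J‖ := hs.norm_Cn hT hJ j
    have c1 : (-(2 * Complex.I * ((-l : ℝ) : ℂ))) *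
      ⟪star E ((U ^ k) Ω), Cn Ω (star R) (star U) j Ω⟫_ℂ = - ⟪star E Ω, S (star (U ^ k) Ω)⟫_ℂ := by
      have d1 : ⟪star E ((U ^ k) Ω), S Ω⟫_ℂ = ⟪star E Ω, S (star (U ^ k) Ω)⟫_ℂ := by
        have := hT.trace (star (U ^ k)) (W_star hT.selfAdjoint (W_pow hUm k)) (E * S)
          (W_mul hEm hSm)
        rw [mul_apply_eq_comp, mul_apply_eq_comp] at this
        rw [ContinuousLinearMap.star_eq_adjoint E, ContinuousLinearMap.adjoint_inner_left,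
          ContinuousLinearMap.adjoint_inner_left, ← this, ContinuousLinearMap.star_eq_adjoint,
          ContinuousLinearMap.adjoint_inner_right]
      rw [← d1, hS, smul_apply, inner_smul_right]
      ring
    rw [c1, norm_neg]
    refine (norm_inner_le_norm _ _).trans ?_
    have c2 : ‖S (star (U ^ k) Ω)‖ = ‖S Ω‖ := by
      refine norm_mul_unitary_vec hT hSm (W_star hT.selfAdjoint (W_pow hUm k)) ?_
      rw [star_star, star_pow]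
      exact star_pow_mul_pow (h.starU_mul_U hX) k
    rw [norm_star_vec hT hEm, c2]
    nlinarith [norm_nonneg (E Ω), norm_nonneg (S Ω)]
  calc _ ≤ ‖⟪tn Ω J R U l k, E ((star U ^ j) Ω)⟫_ℂ‖ +
      ‖(-(2 * Complex.I * ((-l : ℝ) : ℂ))) *
      ⟪star E ((U ^ k) Ω), Cn Ω (star R) (star U) j Ω⟫_ℂ‖ := norm_sub_le _ _
    _ ≤ ‖J‖ * ‖E Ω‖ + 2 * ‖J‖ * ‖E Ω‖ := add_le_add t1 t2
    _ = 3 * ‖J‖ * ‖E Ω‖ := by ring

theorem zn_sum (n : ℕ) : zn Ω R U l n = (-(2 * Complex.I * l)) •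
    ∑ k ∈ Finset.range n, (((U ^ k) (R Ω)) ⊗ₜ[ℂ] ((U ^ (n - 1 - k)) (R Ω)) : H ⊗[ℂ] H) := by
  induction n with
  | zero => simp [zn]
  | succ n ih =>
    have h4 : zn Ω R U l (n + 1) =
      (-(2 * Complex.I * l)) • ((R Ω) ⊗ₜ ((U ^ n) (R Ω))) + tm U 1 (zn Ω R U l n) := rfl
    rw [h4, ih, Finset.sum_range_succ', map_smul, map_sum, ← smul_add]
    congr 1
    rw [add_comm]
    congr 1
    refine Finset.sum_congr rfl fun k hk => ?_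
    rw [tm_tmul, pow_succ', mul_apply_eq_comp, one_apply_eq_self]
    have : n + 1 - 1 - (k + 1) = n - 1 - k := by omega
    rw [this]

theorem Cay.bound_VV (h : Cay (x i₀) l R U) (hT : IsTracialTuple x Ω)
    (hJ : ∀ P : Poly m, ⟪J, ev x P Ω⟫_ℂ = ⟪(Ω ⊗ₜ[ℂ] Ω : H ⊗[ℂ] H), dV x Ω i₀ P⟫_ℂ)
    (k j : ℕ) (Q : Poly m) :
    4 * l ^ 2 * ‖⟪(((U ^ k) (R Ω)) ⊗ₜ[ℂ] ((U ^ j) (R Ω)) : H ⊗[ℂ] H), dV x Ω i₀ Q⟫_ℂ‖ ≤
      12 * ‖J‖ * ‖ev x Q Ω‖ := by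
  have hV : ∀ k, (2 * Complex.I * l) • ((U ^ k) (R Ω)) = (U ^ (k + 1)) Ω - (U ^ k) Ω := by
    intro k
    have : (2 * Complex.I * l) • R = U - 1 := by rw [h.U_eq]; abel
    rw [← map_smul, ← smul_apply, this, sub_apply, map_sub, one_apply_eq_self, pow_succ,
      mul_apply_eq_comp]
  have e1 : (((U ^ (k + 1)) Ω - (U ^ k) Ω) ⊗ₜ[ℂ] ((U ^ (j + 1)) Ω - (U ^ j) Ω) : H ⊗[ℂ] H) =
      ((2 * Complex.I * l) * (2 * Complex.I * l)) •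
        (((U ^ k) (R Ω)) ⊗ₜ[ℂ] ((U ^ j) (R Ω)) : H ⊗[ℂ] H) := by
    rw [← hV, ← hV, TensorProduct.tmul_smul, ← TensorProduct.smul_tmul', smul_smul]
  have e2 : ‖⟪(((U ^ (k + 1)) Ω - (U ^ k) Ω) ⊗ₜ[ℂ] ((U ^ (j + 1)) Ω - (U ^ j) Ω) : H ⊗[ℂ] H),
      dV x Ω i₀ Q⟫_ℂ‖ =
      4 * l ^ 2 * ‖⟪(((U ^ k) (R Ω)) ⊗ₜ[ℂ] ((U ^ j) (R Ω)) : H ⊗[ℂ] H), dV x Ω i₀ Q⟫_ℂ‖ := by
    have a1 : ⟪((2 * Complex.I * l) * (2 * Complex.I * l)) •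
        (((U ^ k) (R Ω)) ⊗ₜ[ℂ] ((U ^ j) (R Ω)) : H ⊗[ℂ] H), dV x Ω i₀ Q⟫_ℂ =
        (starRingEnd ℂ) ((2 * Complex.I * l) * (2 * Complex.I * l)) *
        ⟪(((U ^ k) (R Ω)) ⊗ₜ[ℂ] ((U ^ j) (R Ω)) : H ⊗[ℂ] H), dV x Ω i₀ Q⟫_ℂ :=
      inner_smul_left (𝕜 := ℂ) (E := H ⊗[ℂ] H) _ _ _
    rw [e1, a1, norm_mul, RCLike.norm_conj]
    congr 1
    simp only [norm_mul, Complex.norm_I, Complex.norm_real, Complex.norm_ofNat, mul_one,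
      Real.norm_eq_abs]
    nlinarith [sq_abs l]
  rw [← e2, TensorProduct.sub_tmul, TensorProduct.tmul_sub, TensorProduct.tmul_sub,
    inner_sub_left, inner_sub_left, inner_sub_left]
  have b1 := h.bound_UU hT hJ (k + 1) (j + 1) Q
  have b2 := h.bound_UU hT hJ (k + 1) j Q
  have b3 := h.bound_UU hT hJ k (j + 1) Q
  have b4 := h.bound_UU hT hJ k j Q
  refine (norm_sub_le _ _).trans ?_
  refine (add_le_add (norm_sub_le _ _) (norm_sub_le _ _)).trans ?_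
  linarith

theorem Cay.bound_zn (h : Cay (x i₀) l R U) (hT : IsTracialTuple x Ω)
    (hJ : ∀ P : Poly m, ⟪J, ev x P Ω⟫_ℂ = ⟪(Ω ⊗ₜ[ℂ] Ω : H ⊗[ℂ] H), dV x Ω i₀ P⟫_ℂ)
    (n : ℕ) (Q : Poly m) :
    ‖⟪zn Ω R U l n, dV x Ω i₀ Q⟫_ℂ‖ ≤ (6 * ‖J‖ / |l|) * n * ‖ev x Q Ω‖ := by
  have hl : 0 < |l| := abs_pos.mpr h.ne
  have a1 : ⟪(-(2 * Complex.I * l)) •
    ∑ k ∈ Finset.range n, (((U ^ k) (R Ω)) ⊗ₜ[ℂ] ((U ^ (n - 1 - k)) (R Ω)) : H ⊗[ℂ] H),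
      dV x Ω i₀ Q⟫_ℂ = (starRingEnd ℂ) (-(2 * Complex.I * l)) *
    ⟪∑ k ∈ Finset.range n, (((U ^ k) (R Ω)) ⊗ₜ[ℂ] ((U ^ (n - 1 - k)) (R Ω)) : H ⊗[ℂ] H),
      dV x Ω i₀ Q⟫_ℂ :=
      inner_smul_left (𝕜 := ℂ) (E := H ⊗[ℂ] H) _ _ _
  rw [zn_sum, a1, norm_mul, RCLike.norm_conj, sum_inner]
  have a2 : ‖(-(2 * Complex.I * l) : ℂ)‖ = 2 * |l| := by simp
  rw [a2]
  have a3 : ‖∑ k ∈ Finset.range n, ⟪(((U ^ k) (R Ω)) ⊗ₜ[ℂ] ((U ^ (n - 1 - k)) (R Ω)) : H ⊗[ℂ] H),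
      dV x Ω i₀ Q⟫_ℂ‖ ≤ ∑ k ∈ Finset.range n, (3 * ‖J‖ * ‖ev x Q Ω‖ / l ^ 2) := by
    refine norm_sum_le_of_le _ fun k _ => ?_
    have := h.bound_VV hT hJ k (n - 1 - k) Q
    rw [le_div_iff₀ (by rw [← sq_abs]; positivity)]
    nlinarith
  rw [Finset.sum_const, Finset.card_range, nsmul_eq_mul] at a3
  calc 2 * |l| * ‖∑ k ∈ Finset.range n,
        ⟪(((U ^ k) (R Ω)) ⊗ₜ[ℂ] ((U ^ (n - 1 - k)) (R Ω)) : H ⊗[ℂ] H), dV x Ω i₀ Q⟫_ℂ‖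
      ≤ 2 * |l| * (n * (3 * ‖J‖ * ‖ev x Q Ω‖ / l ^ 2)) := by gcongr
    _ = (6 * ‖J‖ / |l|) * n * ‖ev x Q Ω‖ := by
      rw [← sq_abs l]; field_simp; ring

/-- stationarity -/
theorem Cay.stat (h : Cay (x i₀) l R U) (hT : IsTracialTuple x Ω) (ξ : H) (a b c : ℕ) :
    ⟪(U ^ (a + c)) ξ, (U ^ (b + c)) ξ⟫_ℂ = ⟪(U ^ a) ξ, (U ^ b) ξ⟫_ℂ := by
  have h1 : (star U) ^ c * U ^ c = 1 := star_pow_mul_pow (h.starU_mul_U (hT.selfAdjoint i₀)) c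
  rw [add_comm a c, add_comm b c, pow_add, pow_add, mul_apply_eq_comp, mul_apply_eq_comp,
    ← ContinuousLinearMap.adjoint_inner_right, ← ContinuousLinearMap.star_eq_adjoint, star_pow,
    ← mul_apply_eq_comp, h1, one_apply_eq_self]

theorem Cay.stat' (h : Cay (x i₀) l R U) (hT : IsTracialTuple x Ω) (ξ : H) {a b a' b' : ℕ}
    (he : a + b' = a' + b) :
    ⟪(U ^ a) ξ, (U ^ b) ξ⟫_ℂ = ⟪(U ^ a') ξ, (U ^ b') ξ⟫_ℂ := by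
  rw [← h.stat hT ξ a b b', ← h.stat hT ξ a' b' b, he, add_comm b b']

/-- lower bound on `‖ζ_n‖²` -/
theorem Cay.norm_zn (h : Cay (x i₀) l R U) (hT : IsTracialTuple x Ω) (n : ℕ) :
    (4 * l ^ 2 * ‖R Ω‖ ^ 4) * n ≤ ‖zn Ω R U l n‖ ^ 2 := by
  set V : ℕ → H := fun k => (U ^ k) (R Ω) with hV
  have e1 : ‖∑ k ∈ Finset.range n, ((V k) ⊗ₜ[ℂ] (V (n - 1 - k)) : H ⊗[ℂ] H)‖ ^ 2 =
      ∑ k ∈ Finset.range n, ∑ k' ∈ Finset.range n, Complex.normSq ⟪V k, V k'⟫_ℂ := by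
    rw [← reST]
    have a1 : ⟪∑ k ∈ Finset.range n, ((V k) ⊗ₜ[ℂ] (V (n - 1 - k)) : H ⊗[ℂ] H),
        ∑ k ∈ Finset.range n, ((V k) ⊗ₜ[ℂ] (V (n - 1 - k)) : H ⊗[ℂ] H)⟫_ℂ =
        ∑ k ∈ Finset.range n, ∑ k' ∈ Finset.range n,
          (⟪V k, V k'⟫_ℂ * ⟪V (n - 1 - k), V (n - 1 - k')⟫_ℂ) := by
      rw [sum_inner]
      refine Finset.sum_congr rfl fun k _ => ?_
      rw [inner_sum]
      refine Finset.sum_congr rfl fun k' _ => ?_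
      rw [TensorProduct.inner_tmul]
    rw [a1, Complex.re_sum]
    refine Finset.sum_congr rfl fun k hk => ?_
    rw [Complex.re_sum]
    refine Finset.sum_congr rfl fun k' hk' => ?_
    rw [Finset.mem_range] at hk hk'
    have a2 : ⟪V (n - 1 - k), V (n - 1 - k')⟫_ℂ = (starRingEnd ℂ) ⟪V k, V k'⟫_ℂ := by
      rw [inner_conj_symm]
      exact h.stat' hT (R Ω) (by omega)
    rw [a2, Complex.mul_conj, Complex.ofReal_re]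
  have e2 : (n : ℝ) * ‖R Ω‖ ^ 4 ≤
      ‖∑ k ∈ Finset.range n, ((V k) ⊗ₜ[ℂ] (V (n - 1 - k)) : H ⊗[ℂ] H)‖ ^ 2 := by
    rw [e1]
    have : (n : ℝ) * ‖R Ω‖ ^ 4 = ∑ k ∈ Finset.range n, ‖R Ω‖ ^ 4 := by simp
    rw [this]
    refine Finset.sum_le_sum fun k hk => ?_
    have b1 : Complex.normSq ⟪V k, V k⟫_ℂ = ‖R Ω‖ ^ 4 := by
      rw [Complex.normSq_eq_norm_sq, inner_self_eq_norm_sq_to_K, hV]
      simp only
      rw [h.norm_U_pow_apply hT, norm_pow, RCLike.norm_ofReal, abs_norm]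
      ring
    rw [← b1]
    exact Finset.single_le_sum (f := fun k' => Complex.normSq ⟪V k, V k'⟫_ℂ)
      (fun _ _ => Complex.normSq_nonneg _) hk
  rw [zn_sum, norm_smul]
  have a2 : ‖(-(2 * Complex.I * l) : ℂ)‖ = 2 * |l| := by simp
  rw [a2, mul_pow, mul_pow, sq_abs]
  nlinarith [sq_nonneg l]

/-- Riesz -/
theorem exists_adj (ζ : H ⊗[ℂ] H) (C : ℝ) (hC : 0 ≤ C)
    (hb : ∀ Q : Poly m, ‖⟪ζ, dV x Ω i₀ Q⟫_ℂ‖ ≤ C * ‖ev x Q Ω‖) :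
    ∃ k : H, ‖k‖ ≤ C ∧ ∀ Q : Poly m, ⟪k, evV x Ω Q⟫_ℂ = ⟪ζ, dV x Ω i₀ Q⟫_ℂ := by
  let F : Poly m →ₗ[ℂ] ℂ := (innerSL ℂ ζ).toLinearMap ∘ₗ dV x Ω i₀
  have hF : ∀ Q, F Q = ⟪ζ, dV x Ω i₀ Q⟫_ℂ := fun Q => rfl
  let e : Poly m →ₗ[ℂ] H := evV x Ω
  have hn : ∃ C : ℝ, ∀ Q, ‖F Q‖ ≤ C * ‖e Q‖ := ⟨C, fun Q => by rw [hF]; exact hb Q⟩
  let f : LinearMap.range e →L[ℂ] ℂ := F.compLeftInverse e
  have hf : ‖f‖ ≤ C := by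
    refine ContinuousLinearMap.opNorm_le_bound _ hC ?_
    rintro ⟨y, Q, hQ⟩
    have : f ⟨y, Q, hQ⟩ = F Q := LinearMap.compLeftInverse_apply_of_bdd F e hn Q y hQ
    rw [this, hF]
    have h2 := hb Q
    have h3 : ‖(⟨y, Q, hQ⟩ : LinearMap.range e)‖ = ‖ev x Q Ω‖ := by
      change ‖y‖ = _
      rw [← hQ]; rfl
    rw [h3]; exact h2
  obtain ⟨g, hg1, hg2⟩ := exists_extension_norm_eq (LinearMap.range e) f
  refine ⟨(InnerProductSpace.toDual ℂ H).symm g, ?_, ?_⟩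
  · rw [LinearIsometryEquiv.norm_map, hg2]; exact hf
  · intro Q
    rw [InnerProductSpace.toDual_symm_apply]
    have h1 := hg1 ⟨e Q, LinearMap.mem_range_self e Q⟩
    have h2 : f ⟨e Q, LinearMap.mem_range_self e Q⟩ = F Q :=
      LinearMap.compLeftInverse_apply_of_bdd F e hn Q _ rfl
    rw [h2] at h1
    exact h1

end H203R3.FD
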