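import Mathlib

/-! Definitions: free difference quotients, conjugate variables, the free Laplacian and its heat
semigroup on the standard space of a tracial von Neumann algebra. -/

open scoped InnerProductSpace TensorProduct Topology
open Filter

namespace H203R3.FD

/-- Noncommutative polynomials in m indeterminates. -/
abbrev Poly (m : ℕ) : Type := FreeAlgebra ℂ (Fin m)

/-- The algebra homomorphism whose upper right entry is the free difference quotient: it sends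
`X_j` to the matrix with rows `(X_j ⊗ 1, δ_ij 1 ⊗ 1)` and `(0, 1 ⊗ X_j)`. -/
noncomputable def fdqHom (m : ℕ) (i : Fin m) :
    Poly m →ₐ[ℂ] Matrix (Fin 2) (Fin 2) (Poly m ⊗[ℂ] Poly m) :=
  FreeAlgebra.lift ℂ (fun j =>
    !![FreeAlgebra.ι ℂ j ⊗ₜ[ℂ] (1 : Poly m), (if i = j then 1 else 0);
       0, (1 : Poly m) ⊗ₜ[ℂ] FreeAlgebra.ι ℂ j])

/-- The free difference quotient `∂_i : ℂ⟨X⟩ → ℂ⟨X⟩ ⊗ ℂ⟨X⟩`, the derivation with
`∂_i X_j = δ_ij 1 ⊗ 1` (see `fdq_ι` and `fdq_mul`). -/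
noncomputable def fdq {m : ℕ} (i : Fin m) : Poly m →ₗ[ℂ] Poly m ⊗[ℂ] Poly m where
  toFun P := fdqHom m i P 0 1
  map_add' P Q := by simp
  map_smul' c P := by simp

section
variable {m : ℕ}

theorem fdq_apply (i : Fin m) (P : Poly m) : fdq i P = fdqHom m i P 0 1 := rfl

theorem fdqHom_ι (i j : Fin m) : fdqHom m i (FreeAlgebra.ι ℂ j) =
    !![FreeAlgebra.ι ℂ j ⊗ₜ[ℂ] (1 : Poly m), (if i = j then 1 else 0);
       0, (1 : Poly m) ⊗ₜ[ℂ] FreeAlgebra.ι ℂ j] := by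
  simp [fdqHom]

@[simp] theorem fdq_ι (i j : Fin m) :
    fdq i (FreeAlgebra.ι ℂ j) = if i = j then (1 : Poly m) ⊗ₜ[ℂ] (1 : Poly m) else 0 := by
  rw [fdq_apply, fdqHom_ι]
  simp [Algebra.TensorProduct.one_def]

theorem fdqHom_diag (i : Fin m) (P : Poly m) :
    fdqHom m i P 0 0 = P ⊗ₜ 1 ∧ fdqHom m i P 1 1 = 1 ⊗ₜ P ∧ fdqHom m i P 1 0 = 0 := by
  induction P using FreeAlgebra.induction with
  | grade0 r =>
    simp only [AlgHom.commutes, Matrix.algebraMap_matrix_apply]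
    refine ⟨?_, ?_, ?_⟩
    · simp [Algebra.TensorProduct.algebraMap_apply]
    · simp only [if_true]
      rw [Algebra.TensorProduct.algebraMap_apply, Algebra.algebraMap_eq_smul_one,
        TensorProduct.smul_tmul]
    · simp
  | grade1 j =>
    rw [fdqHom_ι]
    simp
  | mul a b ha hb =>
    rw [map_mul]
    simp only [Matrix.mul_apply, Fin.sum_univ_two]
    rw [ha.1, ha.2.1, ha.2.2, hb.1, hb.2.1, hb.2.2]
    simp
  | add a b ha hb =>
    rw [map_add]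
    simp only [Matrix.add_apply]
    rw [ha.1, ha.2.1, ha.2.2, hb.1, hb.2.1, hb.2.2]
    simp [TensorProduct.add_tmul, TensorProduct.tmul_add]

/-- The Leibniz rule `∂_i (P Q) = ∂_i P · Q + P · ∂_i Q`. -/
theorem fdq_mul (i : Fin m) (P Q : Poly m) :
    fdq i (P * Q) = fdq i P * ((1 : Poly m) ⊗ₜ Q) + (P ⊗ₜ (1 : Poly m)) * fdq i Q := by
  rw [fdq_apply, map_mul, Matrix.mul_apply, Fin.sum_univ_two, (fdqHom_diag i P).1,
    (fdqHom_diag i Q).2.1, fdq_apply, fdq_apply]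
  rw [add_comm]

@[simp] theorem fdq_one (i : Fin m) : fdq i (1 : Poly m) = 0 := by
  rw [fdq_apply, map_one]; simp

end

variable {H : Type*} [NormedAddCommGroup H] [InnerProductSpace ℂ H] [CompleteSpace H]

/-- Evaluation of a noncommutative polynomial at the tuple `x`. -/
noncomputable def ev {m : ℕ} (x : Fin m → H →L[ℂ] H) : Poly m →ₐ[ℂ] (H →L[ℂ] H) :=
  FreeAlgebra.lift ℂ x

/-- The vector `P(x) Ω`. -/
noncomputable def evV {m : ℕ} (x : Fin m → H →L[ℂ] H) (Ω : H) : Poly m →ₗ[ℂ] H where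
  toFun P := ev x P Ω
  map_add' P Q := by simp
  map_smul' c P := by simp

/-- The vector `∂_i P (x)` in the algebraic tensor product `H ⊗ H`, where `P' ⊗ P''` is read
as `P'(x) Ω ⊗ P''(x) Ω`. -/
noncomputable def dV {m : ℕ} (x : Fin m → H →L[ℂ] H) (Ω : H) (i : Fin m) :
    Poly m →ₗ[ℂ] H ⊗[ℂ] H :=
  TensorProduct.map (evV x Ω) (evV x Ω) ∘ₗ fdq i

/-- The Hilbert space tensor product. -/
abbrev HT (H : Type*) [NormedAddCommGroup H] [InnerProductSpace ℂ H] : Type _ :=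
  UniformSpace.Completion (H ⊗[ℂ] H)

/-- The free difference quotient `∂_i P (x)` as an element of the Hilbert space tensor product. -/
noncomputable def dK {m : ℕ} (x : Fin m → H →L[ℂ] H) (Ω : H) (i : Fin m) (P : Poly m) : HT H :=
  ((dV x Ω i P : H ⊗[ℂ] H) : HT H)

/-- The von Neumann algebra generated by a tuple of self-adjoint operators, that is its
bicommutant. -/
def WStar {m : ℕ} (x : Fin m → H →L[ℂ] H) : Set (H →L[ℂ] H) :=
  Set.centralizer (Set.centralizer (Set.range x))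

/-- `x` is a tuple of bounded self-adjoint operators, `Ω` is a unit vector which is cyclic for
`N = W*(x)` and whose vector state is a trace on `N`; that is, `N` is represented on `H = L²(N)`. -/
structure IsTracialTuple {m : ℕ} (x : Fin m → H →L[ℂ] H) (Ω : H) : Prop where
  selfAdjoint : ∀ i, IsSelfAdjoint (x i)
  norm_one : ‖Ω‖ = 1
  cyclic : Dense {ξ : H | ∃ a ∈ WStar x, ξ = a Ω}
  trace : ∀ a ∈ WStar x, ∀ b ∈ WStar x, ⟪Ω, a (b Ω)⟫_ℂ = ⟪Ω, b (a Ω)⟫_ℂ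

/-- Finite free Fisher information: all conjugate variables `J i = ∂_i^*(1 ⊗ 1)` exist in
`L²(N)`. -/
def FiniteFisher {m : ℕ} (x : Fin m → H →L[ℂ] H) (Ω : H) : Prop :=
  ∃ J : Fin m → H, ∀ i, ∀ P : Poly m,
    ⟪J i, evV x Ω P⟫_ℂ = ⟪((Ω ⊗ₜ[ℂ] Ω : H ⊗[ℂ] H) : HT H), dK x Ω i P⟫_ℂ

/-- `(ζ, k)` is in the graph of the adjoint `∂_i^*`. -/
def AdjRel {m : ℕ} (x : Fin m → H →L[ℂ] H) (Ω : H) (i : Fin m) (ζ : HT H) (k : H) : Prop :=
  ∀ P : Poly m, ⟪k, evV x Ω P⟫_ℂ = ⟪ζ, dK x Ω i P⟫_ℂ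

/-- `(h, (ζ_i))` is in the closure of the graph of `P(x) Ω ↦ (∂_i P)_i`. -/
def ClosRel {m : ℕ} (x : Fin m → H →L[ℂ] H) (Ω : H) (h : H) (ζ : Fin m → HT H) : Prop :=
  ∃ P : ℕ → Poly m, Tendsto (fun n => evV x Ω (P n)) atTop (𝓝 h) ∧
    ∀ i, Tendsto (fun n => dK x Ω i (P n)) atTop (𝓝 (ζ i))

/-- The graph of `Δ = ∑ ∂_i^* ∂̄_i`: `h` is in the domain and `Δ h = g`. The closure is taken
jointly in `i` and every `ζ_i` is asked to lie in the domain of `∂_i^*`; this is the smallest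
natural domain, so that both the operator sum of the `∂̄_i^* ∂̄_i` and the positive self-adjoint
operator of the closed quadratic form `h ↦ ∑ ‖∂̄_i h‖²` extend this relation. -/
def LapRel {m : ℕ} (x : Fin m → H →L[ℂ] H) (Ω : H) (h g : H) : Prop :=
  ∃ (ζ : Fin m → HT H) (k : Fin m → H), ClosRel x Ω h ζ ∧ (∀ i, AdjRel x Ω i (ζ i) (k i)) ∧
    g = ∑ i, k i

/-- `φ_t = exp(- t Δ)`: a semigroup of self-adjoint contractions of `L²(N)` whose generator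
extends `-Δ`, that is `(h - φ_t h) / t → Δ h` as `t → 0+` for every `h` in the domain of `Δ`
(described by `LapRel`). -/
structure IsHeatSemigroup {m : ℕ} (x : Fin m → H →L[ℂ] H) (Ω : H) (φ : ℝ → H →L[ℂ] H) :
    Prop where
  zero : φ 0 = 1
  add : ∀ s, 0 ≤ s → ∀ t, 0 ≤ t → φ (s + t) = φ s * φ t
  contraction : ∀ t, 0 ≤ t → ‖φ t‖ ≤ 1
  selfAdjoint : ∀ t, 0 ≤ t → IsSelfAdjoint (φ t)
  generator : ∀ h g, LapRel x Ω h g →
    Tendsto (fun t : ℝ => (t⁻¹ : ℂ) • (h - φ t h)) (𝓝[>] 0) (𝓝 g)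

/-- `sup {‖φ_t(y) - y‖₂ : y ∈ N, ‖y‖ ≤ 1}`. -/
noncomputable def ballDist {m : ℕ} (x : Fin m → H →L[ℂ] H) (Ω : H) (φ : ℝ → H →L[ℂ] H)
    (t : ℝ) : ℝ :=
  sSup {r : ℝ | ∃ y ∈ WStar x, ‖y‖ ≤ 1 ∧ r = ‖φ t (y Ω) - y Ω‖}

end H203R3.FD
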