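import Pool.Agent.H203R3.FD.Tens

open scoped InnerProductSpace TensorProduct Topology
open Filter Polynomial

set_option linter.unusedSectionVars false

namespace H203R3.FD

variable {H : Type*} [NormedAddCommGroup H] [InnerProductSpace ℂ H] [CompleteSpace H]
variable {m : ℕ} (x : Fin m → H →L[ℂ] H) (Ω : H) (i₀ : Fin m)

/-- evaluation of `F ⊗ F` in `H ⊗ H` -/
noncomputable def evT : Poly m ⊗[ℂ] Poly m →ₗ[ℂ] H ⊗[ℂ] H :=
  TensorProduct.map (evV x Ω) (evV x Ω)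

theorem dV_apply (i : Fin m) (P : Poly m) : dV x Ω i P = evT x Ω (fdq i P) := rfl

@[simp] theorem evT_tmul (P Q : Poly m) : evT x Ω (P ⊗ₜ Q) = (ev x P Ω) ⊗ₜ (ev x Q Ω) := rfl

theorem evV_apply (P : Poly m) : evV x Ω P = ev x P Ω := rfl

@[simp] theorem ev_ι (i : Fin m) : ev x (FreeAlgebra.ι ℂ i) = x i := by simp [ev]

theorem evT_left (P : Poly m) (G : Poly m ⊗[ℂ] Poly m) :
    evT x Ω ((P ⊗ₜ (1 : Poly m)) * G) = tm (ev x P) 1 (evT x Ω G) := by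
  induction G using TensorProduct.induction_on with
  | zero => simp
  | add z₁ z₂ h₁ h₂ => rw [mul_add, map_add, map_add, map_add, h₁, h₂]
  | tmul u v => simp

theorem dV_mul (i : Fin m) (P Q : Poly m) :
    dV x Ω i (P * Q) = evT x Ω (fdq i P * ((1 : Poly m) ⊗ₜ Q)) + tm (ev x P) 1 (dV x Ω i Q) := by
  rw [dV_apply, fdq_mul, map_add, evT_left, ← dV_apply]

/-- free polynomial in the variable `i₀` -/
noncomputable def pf (p : ℂ[X]) : Poly m := aeval (FreeAlgebra.ι ℂ i₀) p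

/-- the derivation on one variable polynomials -/
noncomputable def D1 : ℂ[X] →ₗ[ℂ] H ⊗[ℂ] H :=
  dV x Ω i₀ ∘ₗ (aeval (R := ℂ) (FreeAlgebra.ι ℂ i₀ : Poly m)).toLinearMap

theorem D1_apply (p : ℂ[X]) : D1 x Ω i₀ p = dV x Ω i₀ (pf i₀ p) := rfl

theorem ev_pf (p : ℂ[X]) : ev x (pf i₀ p) = aeval (x i₀) p := by
  unfold pf
  rw [← Polynomial.aeval_algHom_apply, ev_ι]

theorem pf_mul (p q : ℂ[X]) : (pf i₀ (p * q) : Poly m) = pf i₀ p * pf i₀ q := by simp [pf]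

theorem D1_X_mul (q : ℂ[X]) :
    D1 x Ω i₀ (X * q) = Ω ⊗ₜ (aeval (x i₀) q Ω) + tm (x i₀) 1 (D1 x Ω i₀ q) := by
  rw [D1_apply, pf_mul, dV_mul]
  have h1 : (pf i₀ X : Poly m) = FreeAlgebra.ι ℂ i₀ := by simp [pf]
  rw [h1, fdq_ι, if_pos rfl, ev_ι, ← D1_apply]
  simp only [Algebra.TensorProduct.tmul_mul_tmul, one_mul, evT_tmul, map_one,
    one_apply_eq_self, ev_pf]

theorem D1_one : D1 x Ω i₀ 1 = 0 := by
  rw [D1_apply]
  have h1 : (pf i₀ 1 : Poly m) = 1 := by simp [pf]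
  rw [h1, dV_apply, fdq_one, map_zero]

theorem D1_X : D1 x Ω i₀ X = Ω ⊗ₜ Ω := by
  have := D1_X_mul x Ω i₀ 1
  rw [mul_one, D1_one] at this
  simpa using this

theorem D1_X_pow_mul (n : ℕ) : ∀ q : ℂ[X],
    D1 x Ω i₀ (X ^ n * q) = tm 1 (aeval (x i₀) q) (D1 x Ω i₀ (X ^ n)) +
      tm (aeval (x i₀) (X ^ n : ℂ[X])) 1 (D1 x Ω i₀ q) := by
  induction n with
  | zero =>
    intro q
    simp [D1_one, tm_one_one]
  | succ n ih =>
    intro q
    have e1 : (X ^ (n + 1) * q : ℂ[X]) = X * (X ^ n * q) := by ring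
    have e2 : (X ^ (n + 1) : ℂ[X]) = X * X ^ n := by ring
    rw [e1, D1_X_mul, ih, e2, D1_X_mul, map_add, map_add, ← tm_mul, ← tm_mul, tm_tmul,
      ← tm_mul]
    simp only [one_mul, mul_one, map_mul, aeval_X, one_apply_eq_self]
    have e3 : (aeval (x i₀) (X ^ n : ℂ[X]) * aeval (x i₀) q) Ω =
        (aeval (x i₀) q) ((aeval (x i₀) (X ^ n : ℂ[X])) Ω) := by
      rw [← mul_apply_eq_comp, ← map_mul, ← map_mul, mul_comm]
    rw [e3]
    abel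

theorem D1_mul (p q : ℂ[X]) :
    D1 x Ω i₀ (p * q) = tm 1 (aeval (x i₀) q) (D1 x Ω i₀ p) +
      tm (aeval (x i₀) p) 1 (D1 x Ω i₀ q) := by
  induction p using Polynomial.induction_on' with
  | add p p' h h' =>
    rw [add_mul, map_add, h, h', map_add, map_add, map_add, tm_add_left]; abel
  | monomial n a =>
    rw [← C_mul_X_pow_eq_monomial, ← smul_eq_C_mul, smul_mul_assoc, map_smul, D1_X_pow_mul,
      map_smul, map_smul, map_smul, tm_smul_left, smul_add]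

theorem norm_D1_pow (ρ : ℝ) (hρ : ‖x i₀‖ ≤ ρ) (hρ0 : 0 < ρ) (hΩ : ‖Ω‖ = 1) (n : ℕ) :
    ρ * ‖D1 x Ω i₀ (X ^ n)‖ ≤ n * ρ ^ n := by
  induction n with
  | zero => simp [D1_one]
  | succ n ih =>
    have e2 : (X ^ (n + 1) : ℂ[X]) = X * X ^ n := by ring
    rw [e2, D1_X_mul]
    have h1 : ‖(Ω ⊗ₜ[ℂ] (aeval (x i₀) (X ^ n : ℂ[X]) Ω) : H ⊗[ℂ] H)‖ ≤ ρ ^ n := by
      rw [TensorProduct.norm_tmul, hΩ, one_mul]
      calc ‖aeval (x i₀) (X ^ n : ℂ[X]) Ω‖ ≤ ‖aeval (x i₀) (X ^ n : ℂ[X])‖ * ‖Ω‖ :=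
            ContinuousLinearMap.le_opNorm _ _
        _ = ‖(x i₀) ^ n‖ := by simp [hΩ]
        _ ≤ ρ ^ n := by
          rcases Nat.eq_zero_or_pos n with h0 | h0
          · subst h0
            simp only [pow_zero]
            exact ContinuousLinearMap.norm_id_le
          · exact (norm_pow_le' _ h0).trans (by gcongr)
    have h2 : ‖tm (x i₀) 1 (D1 x Ω i₀ (X ^ n))‖ ≤ ρ * ‖D1 x Ω i₀ (X ^ n)‖ :=
      (norm_tm_left_le _ _).trans (by gcongr)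
    have h3 := norm_add_le (Ω ⊗ₜ[ℂ] (aeval (x i₀) (X ^ n : ℂ[X]) Ω) : H ⊗[ℂ] H)
      (tm (x i₀) 1 (D1 x Ω i₀ (X ^ n)))
    push_cast
    calc ρ * ‖(Ω ⊗ₜ[ℂ] (aeval (x i₀) (X ^ n : ℂ[X]) Ω) : H ⊗[ℂ] H) +
          tm (x i₀) 1 (D1 x Ω i₀ (X ^ n))‖
        ≤ ρ * (ρ ^ n + n * ρ ^ n) := by
          gcongr
          linarith
      _ = (n + 1) * ρ ^ (n + 1) := by ring

theorem fdq_pow_ne (i : Fin m) (hi : i ≠ i₀) (n : ℕ) :
    fdq i ((FreeAlgebra.ι ℂ i₀ : Poly m) ^ n) = 0 := by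
  induction n with
  | zero => simp
  | succ n ih => rw [pow_succ, fdq_mul, ih, fdq_ι, if_neg hi]; simp

theorem dV_pf_ne (i : Fin m) (hi : i ≠ i₀) (p : ℂ[X]) : dV x Ω i (pf i₀ p) = 0 := by
  have : fdq i (pf i₀ p : Poly m) = 0 := by
    induction p using Polynomial.induction_on' with
    | add p p' h h' =>
      have : (pf i₀ (p + p') : Poly m) = pf i₀ p + pf i₀ p' := by simp [pf]
      rw [this, map_add, h, h', add_zero]
    | monomial n a =>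
      have : (pf i₀ (monomial n a) : Poly m) = a • (FreeAlgebra.ι ℂ i₀) ^ n := by
        simp [pf, aeval_monomial, Algebra.smul_def]
      rw [this, map_smul, fdq_pow_ne i₀ i hi, smul_zero]
  rw [dV_apply, this, map_zero]

/-- joint closure of evaluation and derivation in one variable -/
def Cl (f : H →L[ℂ] H) (η : H ⊗[ℂ] H) : Prop :=
  ∃ p : ℕ → ℂ[X], Tendsto (fun n => aeval (x i₀) (p n)) atTop (𝓝 f) ∧
    Tendsto (fun n => D1 x Ω i₀ (p n)) atTop (𝓝 η)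

variable {x Ω i₀}

theorem Cl.mul {f g : H →L[ℂ] H} {ζ η : H ⊗[ℂ] H} (hf : Cl x Ω i₀ f ζ) (hg : Cl x Ω i₀ g η) :
    Cl x Ω i₀ (f * g) (tm 1 g ζ + tm f 1 η) := by
  obtain ⟨p, hp1, hp2⟩ := hf
  obtain ⟨q, hq1, hq2⟩ := hg
  refine ⟨fun n => p n * q n, ?_, ?_⟩
  · simpa using hp1.mul hq1
  · simp only [D1_mul]
    exact (tendsto_tm_right hq1 hp2).add (tendsto_tm_left hp1 hq2)

theorem Cl.add {f g : H →L[ℂ] H} {ζ η : H ⊗[ℂ] H} (hf : Cl x Ω i₀ f ζ) (hg : Cl x Ω i₀ g η) :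
    Cl x Ω i₀ (f + g) (ζ + η) := by
  obtain ⟨p, hp1, hp2⟩ := hf
  obtain ⟨q, hq1, hq2⟩ := hg
  refine ⟨fun n => p n + q n, ?_, ?_⟩
  · simpa using hp1.add hq1
  · simpa using hp2.add hq2

theorem Cl.smul {f : H →L[ℂ] H} {ζ : H ⊗[ℂ] H} (hf : Cl x Ω i₀ f ζ) (c : ℂ) :
    Cl x Ω i₀ (c • f) (c • ζ) := by
  obtain ⟨p, hp1, hp2⟩ := hf
  refine ⟨fun n => c • p n, ?_, ?_⟩
  · simpa using hp1.const_smul c
  · simpa using hp2.const_smul c

theorem Cl.one : Cl x Ω i₀ 1 0 := by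
  refine ⟨fun _ => 1, ?_, ?_⟩
  · simp
  · simp [D1_one]

/-- the resolvent is in the closure -/
theorem Cl.res (hΩ : ‖Ω‖ = 1) {z : ℂ} (hz : ‖x i₀‖ < ‖z‖) {R : H →L[ℂ] H}
    (hR : R * (x i₀ - z • 1) = 1) : Cl x Ω i₀ R (-((R Ω) ⊗ₜ (R Ω))) := by
  have hz0 : z ≠ 0 := by
    rintro rfl
    simp only [norm_zero] at hz
    exact absurd (norm_nonneg _) (not_le.mpr hz)
  have hzn : 0 < ‖z‖ := norm_pos_iff.mpr hz0
  set ρ : ℝ := (‖x i₀‖ + ‖z‖) / 2 with hρd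
  have hρ1 : ‖x i₀‖ ≤ ρ := by rw [hρd]; linarith
  have hρ0 : 0 < ρ := by rw [hρd]; have := norm_nonneg (x i₀); linarith
  have hρ2 : ρ < ‖z‖ := by rw [hρd]; linarith
  clear_value ρ
  -- the partial sums
  let r : ℕ → ℂ[X] := fun N => - ∑ j ∈ Finset.range N, C ((z⁻¹) ^ (j + 1)) * X ^ j
  have hr : ∀ N, (X - C z) * r N = 1 - C ((z⁻¹) ^ N) * X ^ N := by
    intro N
    induction N with
    | zero => simp [r]
    | succ N ih =>
      have e : r (N + 1) = r N - C ((z⁻¹) ^ (N + 1)) * X ^ N := by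
        simp only [r, Finset.sum_range_succ]; ring
      rw [e, mul_sub, ih]
      have h1 : C z * C ((z⁻¹) ^ (N + 1)) = C ((z⁻¹) ^ N) := by
        rw [← C_mul]; congr 1; rw [pow_succ]; field_simp
      calc 1 - C ((z⁻¹) ^ N) * X ^ N - (X - C z) * (C ((z⁻¹) ^ (N + 1)) * X ^ N)
          = 1 - C ((z⁻¹) ^ N) * X ^ N - C ((z⁻¹) ^ (N + 1)) * X ^ (N + 1)
            + (C z * C ((z⁻¹) ^ (N + 1))) * X ^ N := by ring
        _ = 1 - C ((z⁻¹) ^ (N + 1)) * X ^ (N + 1) := by rw [h1]; ring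
  have hcoef : Tendsto (fun N : ℕ => ((z⁻¹) ^ N) • (x i₀) ^ N) atTop (𝓝 (0 : H →L[ℂ] H)) := by
    rw [tendsto_zero_iff_norm_tendsto_zero]
    have h1 : Tendsto (fun N : ℕ => (ρ / ‖z‖) ^ N) atTop (𝓝 0) :=
      tendsto_pow_atTop_nhds_zero_of_lt_one (by positivity) ((div_lt_one hzn).mpr hρ2)
    refine squeeze_zero (fun _ => norm_nonneg _) (fun N => ?_) h1
    rw [norm_smul, norm_pow, norm_inv, div_pow, div_eq_inv_mul, ← inv_pow]
    gcongr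
    rcases Nat.eq_zero_or_pos N with h0 | h0
    · subst h0
      simp only [pow_zero]
      exact ContinuousLinearMap.norm_id_le
    · exact (norm_pow_le' _ h0).trans (by gcongr)
  have hev : ∀ N, aeval (x i₀) (r N) = R * (1 - ((z⁻¹) ^ N) • (x i₀) ^ N) := by
    intro N
    have h1 := congrArg (aeval (x i₀)) (hr N)
    simp only [map_mul, map_sub, aeval_X, aeval_C, map_one, map_pow] at h1
    have h2 : (x i₀ - algebraMap ℂ (H →L[ℂ] H) z) = x i₀ - z • 1 := by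
      rw [Algebra.algebraMap_eq_smul_one]
    rw [h2] at h1
    calc aeval (x i₀) (r N) = (R * (x i₀ - z • 1)) * aeval (x i₀) (r N) := by rw [hR, one_mul]
      _ = R * ((x i₀ - z • 1) * aeval (x i₀) (r N)) := by rw [mul_assoc]
      _ = _ := by
        rw [h1, ← map_pow, ← Algebra.smul_def]
  have hlim : Tendsto (fun N => aeval (x i₀) (r N)) atTop (𝓝 R) := by
    simp only [hev]
    have := (tendsto_const_nhds (x := (1 : H →L[ℂ] H))).sub hcoef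
    have := this.const_mul R
    simpa using this
  have hD : ∀ N, D1 x Ω i₀ (r N) =
      -((z⁻¹) ^ N • tm R 1 (D1 x Ω i₀ (X ^ N))) - (R Ω) ⊗ₜ (aeval (x i₀) (r N) Ω) := by
    intro N
    have h1 := congrArg (D1 x Ω i₀) (hr N)
    rw [D1_mul, map_sub (D1 x Ω i₀) X (C z), map_sub (D1 x Ω i₀) 1 _, D1_X, D1_one,
      ← smul_eq_C_mul, map_smul] at h1
    have h2 : D1 x Ω i₀ (C z) = 0 := by
      have : (C z : ℂ[X]) = z • 1 := by rw [smul_eq_C_mul, mul_one]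
      rw [this, map_smul, D1_one, smul_zero]
    have h2' : aeval (x i₀) (X - C z : ℂ[X]) = x i₀ - z • 1 := by
      simp [Algebra.algebraMap_eq_smul_one]
    rw [h2, sub_zero, zero_sub, h2', tm_tmul] at h1
    have h3 := congrArg (tm R 1) h1
    rw [map_add, ← tm_mul, hR, mul_one, tm_one_one, tm_tmul] at h3
    simp only [one_apply_eq_self, map_neg, map_smul] at h3
    rw [← h3]; abel
  refine ⟨r, hlim, ?_⟩
  simp only [hD]
  have h4 : Tendsto (fun N : ℕ => (z⁻¹) ^ N • tm R 1 (D1 x Ω i₀ (X ^ N))) atTop (𝓝 0) := by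
    rw [tendsto_zero_iff_norm_tendsto_zero]
    have h5 : Tendsto (fun N : ℕ => (‖R‖ / ρ) * ((N : ℝ) * (ρ / ‖z‖) ^ N)) atTop (𝓝 0) := by
      have := (tendsto_self_mul_const_pow_of_lt_one (r := ρ / ‖z‖) (by positivity)
        ((div_lt_one hzn).mpr hρ2)).const_mul (‖R‖ / ρ)
      simpa using this
    refine squeeze_zero (fun _ => norm_nonneg _) (fun N => ?_) h5
    rw [norm_smul, norm_pow, norm_inv]
    have h6 := norm_tm_left_le R (D1 x Ω i₀ (X ^ N))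
    have h7 := norm_D1_pow x Ω i₀ ρ hρ1 hρ0 hΩ N
    have h8 : ‖D1 x Ω i₀ (X ^ N)‖ ≤ (N * ρ ^ N) / ρ := by
      rw [le_div_iff₀ hρ0]; linarith
    calc ‖z‖⁻¹ ^ N * ‖tm R 1 (D1 x Ω i₀ (X ^ N))‖
        ≤ ‖z‖⁻¹ ^ N * (‖R‖ * ((N * ρ ^ N) / ρ)) := by
          gcongr
          exact h6.trans (by gcongr)
      _ = _ := by
        rw [div_pow, inv_pow]
        field_simp
  have h9 : Tendsto (fun N => ((R Ω) ⊗ₜ[ℂ] (aeval (x i₀) (r N) Ω) : H ⊗[ℂ] H)) atTop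
      (𝓝 ((R Ω) ⊗ₜ (R Ω))) := by
    have h10 : Tendsto (fun N => aeval (x i₀) (r N) Ω) atTop (𝓝 (R Ω)) := by
      have : Continuous (fun T : H →L[ℂ] H => T Ω) := by fun_prop
      exact (this.tendsto R).comp hlim
    have h11 : Tendsto (fun N => ((R Ω), (aeval (x i₀) (r N) Ω))) atTop (𝓝 ((R Ω), (R Ω))) :=
      tendsto_const_nhds.prodMk_nhds h10
    exact ((TensorProduct.continuous_tmul (𝕜 := ℂ) (E := H) (F := H)).tendsto _).comp h11
  simpa using (h4.neg).sub h9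

end H203R3.FD
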