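import Pool.Agent.H203R3.FD.Main

open scoped InnerProductSpace TensorProduct Topology
open Filter

set_option linter.unusedSectionVars false

namespace H203R3.FD

variable {H : Type*} [NormedAddCommGroup H] [InnerProductSpace ℂ H] [CompleteSpace H]
variable {m : ℕ} {x : Fin m → H →L[ℂ] H} {Ω : H}

/-- polynomial vectors are dense -/
theorem poly_dense (hT : IsTracialTuple x Ω) :
    (LinearMap.range (evV x Ω)).topologicalClosure = ⊤ := by
  set K := (LinearMap.range (evV x Ω)).topologicalClosure with hK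
  have hKc : IsClosed (K : Set H) := Submodule.isClosed_topologicalClosure _
  have : CompleteSpace K := hKc.completeSpace_coe
  have hxK : ∀ i, ∀ v ∈ K, x i v ∈ K := by
    intro i v hv
    have h1 : Set.MapsTo (x i) (LinearMap.range (evV x Ω) : Set H)
        (LinearMap.range (evV x Ω) : Set H) := by
      rintro _ ⟨P, rfl⟩
      refine ⟨FreeAlgebra.ι ℂ i * P, ?_⟩
      rw [evV_apply, map_mul, ev_ι, mul_apply_eq_comp, evV_apply]
    exact map_mem_closure (x i).continuous hv h1
  have hcomm : K.starProjection ∈ Set.centralizer (Set.range x) := by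
    rintro _ ⟨i, rfl⟩
    ext v
    rw [mul_apply_eq_comp, mul_apply_eq_comp]
    symm
    refine Submodule.eq_starProjection_of_mem_of_inner_eq_zero
      (hxK i _ (Submodule.starProjection_apply_mem _ _)) ?_
    intro w hw
    rw [← map_sub, ← ContinuousLinearMap.adjoint_inner_right, ← ContinuousLinearMap.star_eq_adjoint,
      (hT.selfAdjoint i).star_eq]
    exact Submodule.starProjection_inner_eq_zero _ _ (hxK i w hw)
  have hΩK : Ω ∈ K := Submodule.le_topologicalClosure _ ⟨1, by rw [evV_apply, map_one]; rfl⟩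
  have hsub : {ξ : H | ∃ a ∈ WStar x, ξ = a Ω} ⊆ (K : Set H) := by
    rintro _ ⟨a, ha, rfl⟩
    have h1 := ha _ hcomm
    have h2 : K.starProjection (a Ω) = a (K.starProjection Ω) := by
      rw [← mul_apply_eq_comp, ← mul_apply_eq_comp, h1]
    rw [Submodule.starProjection_eq_self_iff.mpr hΩK] at h2
    exact Submodule.starProjection_eq_self_iff.mp h2
  have h3 : Dense (K : Set H) := hT.cyclic.mono hsub
  have h4 := h3.closure_eq
  rw [hKc.closure_eq] at h4
  exact SetLike.coe_injective (by rw [h4]; rfl)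

/-- the ambient Hilbert space of the graph -/
abbrev Amb (m : ℕ) (H : Type*) [NormedAddCommGroup H] [InnerProductSpace ℂ H] : Type _ :=
  WithLp 2 (H × PiLp 2 (fun _ : Fin m => HT H))

/-- the graph map -/
noncomputable def gmap (x : Fin m → H →L[ℂ] H) (Ω : H) : Poly m →ₗ[ℂ] Amb m H where
  toFun P := WithLp.toLp 2 (evV x Ω P, WithLp.toLp 2 (fun i => dK x Ω i P))
  map_add' P Q := by
    simp only [map_add, dK, UniformSpace.Completion.coe_add]
    rfl
  map_smul' c P := by
    simp only [map_smul, dK, UniformSpace.Completion.coe_smul]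
    rfl

/-- inclusion of `H` -/
noncomputable def inc (m : ℕ) (H : Type*) [NormedAddCommGroup H] [InnerProductSpace ℂ H] :
    H →L[ℂ] Amb m H :=
  (WithLp.prodContinuousLinearEquiv 2 ℂ H (PiLp 2 (fun _ : Fin m => HT H))).symm.toContinuousLinearMap
    ∘L ContinuousLinearMap.inl ℂ H (PiLp 2 (fun _ : Fin m => HT H))

theorem inc_apply (h : H) : inc m H h = WithLp.toLp 2 (h, 0) := rfl

theorem inner_inc (h : H) (z : Amb m H) : ⟪inc m H h, z⟫_ℂ = ⟪h, z.fst⟫_ℂ := by
  rw [inc_apply, WithLp.prod_inner_apply]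
  simp

/-- closure of the graph -/
noncomputable def graph (x : Fin m → H →L[ℂ] H) (Ω : H) : Submodule ℂ (Amb m H) :=
  (LinearMap.range (gmap x Ω)).topologicalClosure

instance (x : Fin m → H →L[ℂ] H) (Ω : H) : CompleteSpace (graph x Ω) :=
  (Submodule.isClosed_topologicalClosure _).completeSpace_coe

/-- the resolvent `(1 + Δ)⁻¹` -/
noncomputable def resolv (x : Fin m → H →L[ℂ] H) (Ω : H) : H →L[ℂ] H :=
  (ContinuousLinearMap.adjoint (inc m H)) ∘L (graph x Ω).starProjection ∘L (inc m H)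

theorem inner_resolv (h v : H) : ⟪resolv x Ω h, v⟫_ℂ =
    ⟪(graph x Ω).starProjection (inc m H h), (graph x Ω).starProjection (inc m H v)⟫_ℂ := by
  have h1 : resolv x Ω h = (ContinuousLinearMap.adjoint (inc m H))
    ((graph x Ω).starProjection (inc m H h)) := rfl
  rw [h1, ContinuousLinearMap.adjoint_inner_left]
  set p := (graph x Ω).starProjection with hp
  have hps : IsSelfAdjoint p := isSelfAdjoint_starProjection _
  have hpi : p * p = p := (graph x Ω).isIdempotentElem_starProjection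
  have h2 : ⟪p (inc m H h), p (inc m H v)⟫_ℂ = ⟪star p (p (inc m H h)), inc m H v⟫_ℂ := by
    rw [ContinuousLinearMap.star_eq_adjoint, ContinuousLinearMap.adjoint_inner_left]
  rw [h2, hps.star_eq, ← mul_apply_eq_comp, hpi]

theorem resolv_lap {h g : H} (hL : LapRel x Ω h g) : resolv x Ω (h + g) = h := by
  obtain ⟨ζ, k, ⟨P, hP1, hP2⟩, hadj, rfl⟩ := hL
  -- the closure element
  set w : Amb m H := WithLp.toLp 2 (h, WithLp.toLp 2 ζ) with hw
  have hwG : w ∈ graph x Ω := by
    have hlim : Tendsto (fun n => gmap x Ω (P n)) atTop (𝓝 w) := by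
      have c1 : Tendsto (fun n => (fun i => dK x Ω i (P n))) atTop (𝓝 ζ) :=
        tendsto_pi_nhds.mpr hP2
      have c2 : Tendsto (fun n => (WithLp.toLp 2 (fun i => dK x Ω i (P n)) :
          PiLp 2 (fun _ : Fin m => HT H))) atTop (𝓝 (WithLp.toLp 2 ζ)) :=
        ((PiLp.continuous_toLp 2 (fun _ : Fin m => HT H)).tendsto ζ).comp c1
      have c3 := hP1.prodMk_nhds c2
      exact ((WithLp.prod_continuous_toLp 2 H (PiLp 2 (fun _ : Fin m => HT H))).tendsto _).comp c3
    exact mem_closure_of_tendsto hlim (Eventually.of_forall fun n => LinearMap.mem_range_self _ _)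
  have horth : ∀ z ∈ graph x Ω, ⟪inc m H (h + ∑ i, k i) - w, z⟫_ℂ = 0 := by
    intro z hz
    have hcl : IsClosed {z : Amb m H | ⟪inc m H (h + ∑ i, k i) - w, z⟫_ℂ = 0} :=
      isClosed_eq (by fun_prop) continuous_const
    refine closure_minimal ?_ hcl hz
    rintro _ ⟨Q, rfl⟩
    change ⟪inc m H (h + ∑ i, k i) - w, gmap x Ω Q⟫_ℂ = 0
    rw [inner_sub_left, inner_inc, hw, WithLp.prod_inner_apply, PiLp.inner_apply]
    have e1 : (gmap x Ω Q).fst = evV x Ω Q := rfl
    have e2 : ∀ i, (gmap x Ω Q).snd.ofLp i = dK x Ω i Q := fun i => rfl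
    rw [inner_add_left, sum_inner]
    simp only [WithLp.ofLp_fst, WithLp.ofLp_snd, e1, e2]
    have e3 : ∀ i, ⟪k i, evV x Ω Q⟫_ℂ = ⟪ζ i, dK x Ω i Q⟫_ℂ := fun i => hadj i Q
    simp only [e3]
    ring
  have h1 : (graph x Ω).starProjection (inc m H (h + ∑ i, k i)) = w :=
    Submodule.eq_starProjection_of_mem_of_inner_eq_zero hwG horth
  refine ext_inner_right ℂ fun v => ?_
  rw [show resolv x Ω (h + ∑ i, k i) = (ContinuousLinearMap.adjoint (inc m H))
    ((graph x Ω).starProjection (inc m H (h + ∑ i, k i))) from rfl, h1,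
    ContinuousLinearMap.adjoint_inner_left, ← inner_conj_symm, inner_inc, inner_conj_symm]
  rfl

theorem resolv_sa (x : Fin m → H →L[ℂ] H) (Ω : H) : IsSelfAdjoint (resolv x Ω) := by
  rw [ContinuousLinearMap.isSelfAdjoint_iff_isSymmetric]
  intro h v
  change ⟪resolv x Ω h, v⟫_ℂ = ⟪h, resolv x Ω v⟫_ℂ
  rw [inner_resolv, ← inner_conj_symm h, inner_resolv, inner_conj_symm]

theorem norm_inc (h : H) : ‖inc m H h‖ = ‖h‖ := by
  have h1 : ⟪inc m H h, inc m H h⟫_ℂ = ⟪h, h⟫_ℂ := by rw [inner_inc]; rfl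
  have h2 := congrArg Complex.re h1
  rw [reS, reS] at h2
  exact (sq_eq_sq₀ (norm_nonneg _) (norm_nonneg _)).mp h2

theorem resolv_nonneg (x : Fin m → H →L[ℂ] H) (Ω : H) : 0 ≤ resolv x Ω := by
  rw [ContinuousLinearMap.nonneg_iff_isPositive]
  refine ⟨(resolv_sa x Ω).isSymmetric, fun h => ?_⟩
  change 0 ≤ RCLike.re ⟪resolv x Ω h, h⟫_ℂ
  rw [inner_resolv]
  exact inner_self_nonneg

theorem resolv_norm (x : Fin m → H →L[ℂ] H) (Ω : H) : ‖resolv x Ω‖ ≤ 1 := by
  refine ContinuousLinearMap.opNorm_le_bound _ zero_le_one fun h => ?_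
  rw [one_mul]
  have h1 : ‖resolv x Ω h‖ ^ 2 ≤ ‖h‖ * ‖resolv x Ω h‖ := by
    rw [← reS, inner_resolv]
    refine (Complex.re_le_norm _).trans ((norm_inner_le_norm _ _).trans ?_)
    have a1 : ∀ v, ‖(graph x Ω).starProjection (inc m H v)‖ ≤ ‖v‖ := by
      intro v
      refine ((graph x Ω).norm_starProjection_apply_le _).trans ?_
      rw [norm_inc]
    gcongr
    · exact a1 _
    · exact a1 _
  by_contra hcon
  rw [not_le] at hcon
  have h3 : 0 < ‖resolv x Ω h‖ := lt_of_le_of_lt (norm_nonneg _) hcon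
  nlinarith

theorem resolv_inj (hT : IsTracialTuple x Ω) {h : H} (h0 : resolv x Ω h = 0) : h = 0 := by
  have h1 : (graph x Ω).starProjection (inc m H h) = 0 := by
    have a1 : ⟪(graph x Ω).starProjection (inc m H h),
        (graph x Ω).starProjection (inc m H h)⟫_ℂ = 0 := by
      rw [← inner_resolv, h0, inner_zero_left]
    exact inner_self_eq_zero.mp a1
  have h2 : ∀ Q : Poly m, ⟪h, evV x Ω Q⟫_ℂ = 0 := by
    intro Q
    have a2 := Submodule.starProjection_inner_eq_zero (K := graph x Ω) (inc m H h) (gmap x Ω Q)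
      (Submodule.le_topologicalClosure _ (LinearMap.mem_range_self _ _))
    rw [h1, sub_zero, inner_inc] at a2
    exact a2
  have h3 : h ∈ (LinearMap.range (evV x Ω)).topologicalClosureᗮ := by
    rw [Submodule.orthogonal_closure]
    rw [Submodule.mem_orthogonal']
    rintro _ ⟨Q, rfl⟩
    exact h2 Q
  rw [poly_dense hT, Submodule.top_orthogonal_eq_bot] at h3
  exact (Submodule.mem_bot ℂ).mp h3

theorem resolv_range_dense (hT : IsTracialTuple x Ω) :
    Dense (Set.range (resolv x Ω)) := by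
  have h1 : (LinearMap.range (resolv x Ω).toLinearMap)ᗮ = ⊥ := by
    rw [Submodule.eq_bot_iff]
    intro h hh
    rw [Submodule.mem_orthogonal'] at hh
    apply resolv_inj hT
    refine ext_inner_right ℂ fun v => ?_
    rw [inner_zero_left]
    have h2 := hh (resolv x Ω v) ⟨v, rfl⟩
    rw [← ContinuousLinearMap.adjoint_inner_left, ← ContinuousLinearMap.star_eq_adjoint,
      (resolv_sa x Ω).star_eq] at h2
    exact h2
  have h2 := Submodule.topologicalClosure_eq_top_iff.mpr h1
  rw [← Submodule.dense_iff_topologicalClosure_eq_top] at h2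
  exact h2

end H203R3.FD
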