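import Pool.Agent.H203R3.FD.Exist

open scoped InnerProductSpace TensorProduct Topology
open Filter

set_option linter.unusedSectionVars false

namespace H203R3.FD

variable {H : Type*} [NormedAddCommGroup H] [InnerProductSpace ℂ H] [CompleteSpace H]
variable {m : ℕ} {x : Fin m → H →L[ℂ] H} {Ω : H}

/-- `f_t(r) = exp(t - t / r)` for `r > 0`, and `0` for `r ≤ 0`. -/
noncomputable def ft (t r : ℝ) : ℝ := Real.exp t * expNegInvGlue (r / t)

theorem ft_pos {t r : ℝ} (ht : 0 < t) (hr : 0 < r) : ft t r = Real.exp (-(t * (1 / r - 1))) := by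
  have h1 : ¬ (r / t ≤ 0) := not_le.mpr (div_pos hr ht)
  rw [ft, expNegInvGlue, if_neg h1, ← Real.exp_add]
  congr 1
  field_simp
  ring

theorem ft_nonpos {t r : ℝ} (ht : 0 < t) (hr : r ≤ 0) : ft t r = 0 := by
  rw [ft, expNegInvGlue.zero_of_nonpos (div_nonpos_of_nonpos_of_nonneg hr ht.le), mul_zero]

theorem ft_cont (t : ℝ) : Continuous (ft t) := by
  have h1 : Continuous expNegInvGlue := (expNegInvGlue.contDiff (n := 0)).continuous
  unfold ft
  fun_prop

theorem ft_mul {s t : ℝ} (hs : 0 < s) (ht : 0 < t) (r : ℝ) : ft (s + t) r = ft s r * ft t r := by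
  rcases le_or_gt r 0 with hr | hr
  · rw [ft_nonpos hs hr, ft_nonpos (add_pos hs ht) hr, zero_mul]
  · rw [ft_pos hs hr, ft_pos ht hr, ft_pos (add_pos hs ht) hr, ← Real.exp_add]
    congr 1; ring

theorem ft_le {t r : ℝ} (ht : 0 < t) (hr : r ≤ 1) : ft t r ≤ 1 := by
  rcases le_or_gt r 0 with hr0 | hr0
  · rw [ft_nonpos ht hr0]; exact zero_le_one
  · rw [ft_pos ht hr0]
    apply Real.exp_le_one_iff.mpr
    have : 1 ≤ 1 / r := by rw [le_div_iff₀ hr0]; linarith
    nlinarith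

theorem ft_nonneg (t r : ℝ) : 0 ≤ ft t r := by
  unfold ft
  exact mul_nonneg (Real.exp_nonneg _) (expNegInvGlue.nonneg _)

/-- the difference quotient `F_t(r) = t⁻¹ (r - f_t(r) r)` -/
noncomputable def Ft (t r : ℝ) : ℝ := t⁻¹ * (r - ft t r * r)

theorem Ft_cont (t : ℝ) : Continuous (Ft t) := by
  have := ft_cont t
  unfold Ft
  fun_prop

theorem exp_neg_le_quad {u : ℝ} (hu : 0 ≤ u) : Real.exp (-u) ≤ 1 - u + u ^ 2 / 2 := by
  have h1 := Real.quadratic_le_exp_of_nonneg hu
  rw [Real.exp_neg]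
  have h2 : 0 < 1 + u + u ^ 2 / 2 := by positivity
  calc (Real.exp u)⁻¹ ≤ (1 + u + u ^ 2 / 2)⁻¹ := by gcongr
    _ ≤ 1 - u + u ^ 2 / 2 := by
      rw [inv_le_iff_one_le_mul₀ h2]
      nlinarith [sq_nonneg (u ^ 2)]

theorem Ft_bounds {t r : ℝ} (ht : 0 < t) (hr0 : 0 ≤ r) (hr : r ≤ 1) :
    |Ft t r| ≤ 1 ∧ |Ft t r * r - (1 - r) * r| ≤ t / 2 := by
  rcases hr0.eq_or_lt with h0 | h0
  · rw [← h0]
    simp [Ft]
    linarith
  · set lam : ℝ := 1 / r - 1 with hlam
    have hl0 : 0 ≤ lam := by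
      rw [hlam]
      have : 1 ≤ 1 / r := by rw [le_div_iff₀ h0]; linarith
      linarith
    have hlr : lam * r = 1 - r := by rw [hlam]; field_simp
    have hf : ft t r = Real.exp (-(t * lam)) := ft_pos ht h0
    have htl : 0 ≤ t * lam := by positivity
    have e1 : 1 - Real.exp (-(t * lam)) ≤ t * lam := by
      have := Real.add_one_le_exp (-(t * lam)); linarith
    have e2 : 0 ≤ 1 - Real.exp (-(t * lam)) := by
      have : Real.exp (-(t * lam)) ≤ 1 := Real.exp_le_one_iff.mpr (by linarith)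
      linarith
    have e3 := exp_neg_le_quad htl
    have eF : Ft t r = t⁻¹ * (r * (1 - Real.exp (-(t * lam)))) := by
      rw [Ft, hf]; ring
    have b1 : 0 ≤ Ft t r := by rw [eF]; positivity
    have b2 : Ft t r ≤ 1 - r := by
      rw [eF, ← hlr]
      calc t⁻¹ * (r * (1 - Real.exp (-(t * lam)))) ≤ t⁻¹ * (r * (t * lam)) := by gcongr
        _ = lam * r := by field_simp
    have b3 : (1 - r) - t * lam ^ 2 * r / 2 ≤ Ft t r := by
      rw [eF, ← hlr]
      calc lam * r - t * lam ^ 2 * r / 2 = t⁻¹ * (r * (t * lam - (t * lam) ^ 2 / 2)) := by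
            field_simp
        _ ≤ t⁻¹ * (r * (1 - Real.exp (-(t * lam)))) :=
          mul_le_mul_of_nonneg_left (mul_le_mul_of_nonneg_left (by linarith) h0.le)
            (by positivity)
    refine ⟨?_, ?_⟩
    · rw [abs_of_nonneg b1]; linarith
    · rw [← sub_mul, abs_mul, abs_of_pos h0, abs_of_nonpos (by linarith)]
      have c1 : -(Ft t r - (1 - r)) ≤ t * lam ^ 2 * r / 2 := by linarith
      calc -(Ft t r - (1 - r)) * r ≤ (t * lam ^ 2 * r / 2) * r := by gcongr
        _ = t / 2 * (lam * r) ^ 2 := by ring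
        _ ≤ t / 2 * 1 := by
          rw [hlr]
          gcongr
          nlinarith
        _ = t / 2 := by ring

/-- the heat semigroup `exp(- t Δ)` -/
noncomputable def heat (x : Fin m → H →L[ℂ] H) (Ω : H) (t : ℝ) : H →L[ℂ] H :=
  if t ≤ 0 then 1 else cfc (ft t) (resolv x Ω)

theorem spec_resolv (hT : IsTracialTuple x Ω) {r : ℝ} (hr : r ∈ spectrum ℝ (resolv x Ω)) :
    0 ≤ r ∧ r ≤ 1 := by
  have hnt : Nontrivial H := by
    refine ⟨⟨Ω, 0, ?_⟩⟩
    intro h0
    have := hT.norm_one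
    rw [h0, norm_zero] at this
    exact zero_ne_one this
  refine ⟨spectrum_nonneg_of_nonneg (resolv_nonneg x Ω) hr, ?_⟩
  have h1 := spectrum.norm_le_norm_mul_of_mem hr
  rw [norm_one, mul_one] at h1
  exact (le_abs_self r).trans (h1.trans (resolv_norm x Ω))

theorem strong_lim {A : ℝ → H →L[ℂ] H} {B R : H →L[ℂ] H} (hA : ∀ t, 0 < t → ‖A t‖ ≤ 1)
    (hR : Dense (Set.range R)) (hAR : ∀ t, 0 < t → ‖A t * R - B * R‖ ≤ t / 2) (v : H) :
    Tendsto (fun t => A t v) (𝓝[>] 0) (𝓝 (B v)) := by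
  rw [Metric.tendsto_nhds]
  intro ε hε
  have hB : 0 < 1 + ‖B‖ := by positivity
  obtain ⟨w', ⟨w, rfl⟩, hw⟩ := hR.exists_dist_lt v (ε := ε / (2 * (1 + ‖B‖))) (by positivity)
  have hmem : ∀ᶠ t : ℝ in 𝓝[>] 0, t < ε / (1 + ‖w‖) :=
    (tendsto_nhdsWithin_of_tendsto_nhds tendsto_id).eventually_lt_const (by positivity)
  filter_upwards [hmem, self_mem_nhdsWithin] with t ht ht0
  have ht0' : 0 < t := ht0
  rw [dist_eq_norm] at hw ⊢
  have e : A t v - B v = A t (v - R w) + (A t * R - B * R) w - B (v - R w) := by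
    simp only [map_sub, sub_apply, mul_apply_eq_comp]; abel
  rw [e]
  have h1 : ‖A t (v - R w)‖ ≤ ‖v - R w‖ :=
    ((A t).le_opNorm _).trans (mul_le_of_le_one_left (norm_nonneg _) (hA t ht0'))
  have h2 : ‖(A t * R - B * R) w‖ ≤ t / 2 * ‖w‖ :=
    ((A t * R - B * R).le_opNorm _).trans (by gcongr; exact hAR t ht0')
  have h3 : ‖B (v - R w)‖ ≤ ‖B‖ * ‖v - R w‖ := B.le_opNorm _
  have h4 : (1 + ‖B‖) * ‖v - R w‖ < ε / 2 := by
    calc (1 + ‖B‖) * ‖v - R w‖ < (1 + ‖B‖) * (ε / (2 * (1 + ‖B‖))) := by gcongr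
      _ = ε / 2 := by field_simp
  have h5 : t / 2 * ‖w‖ < ε / 2 := by
    have : t * (1 + ‖w‖) < ε := by
      rwa [lt_div_iff₀ (by positivity)] at ht
    nlinarith
  calc ‖A t (v - R w) + (A t * R - B * R) w - B (v - R w)‖
      ≤ ‖A t (v - R w)‖ + ‖(A t * R - B * R) w‖ + ‖B (v - R w)‖ :=
        (norm_sub_le _ _).trans (by gcongr; exact norm_add_le _ _)
    _ < ε := by nlinarith

theorem heat_isHeat (hT : IsTracialTuple x Ω) : IsHeatSemigroup x Ω (heat x Ω) := by
  have hsa := resolv_sa x Ω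
  refine ⟨by simp [heat], ?_, ?_, ?_, ?_⟩
  · intro s hs t ht
    rcases hs.eq_or_lt with h0 | h0
    · rw [← h0, zero_add]; simp [heat]
    rcases ht.eq_or_lt with h1 | h1
    · rw [← h1, add_zero]; simp [heat]
    rw [heat, heat, heat, if_neg (not_le.mpr h0), if_neg (not_le.mpr h1),
      if_neg (not_le.mpr (add_pos h0 h1)),
      ← cfc_mul (ft s) (ft t) (resolv x Ω) (ft_cont s).continuousOn (ft_cont t).continuousOn]
    exact cfc_congr fun r _ => ft_mul h0 h1 r
  · intro t ht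
    rcases ht.eq_or_lt with h1 | h1
    · rw [← h1, heat, if_pos le_rfl]; exact ContinuousLinearMap.norm_id_le
    · rw [heat, if_neg (not_le.mpr h1)]
      refine norm_cfc_le zero_le_one fun r hr => ?_
      rw [Real.norm_eq_abs, abs_of_nonneg (ft_nonneg t r)]
      exact ft_le h1 (spec_resolv hT hr).2
  · intro t ht
    rcases ht.eq_or_lt with h1 | h1
    · rw [← h1, heat, if_pos le_rfl]; exact IsSelfAdjoint.one _
    · rw [heat, if_neg (not_le.mpr h1)]
      exact cfc_predicate _ _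
  · intro h g hL
    have hRv := resolv_lap hL
    set R := resolv x Ω with hR
    set v := h + g with hv
    let A : ℝ → H →L[ℂ] H := fun t => cfc (Ft t) R
    have hA1 : ∀ t, 0 < t → ‖A t‖ ≤ 1 := by
      intro t ht
      refine norm_cfc_le zero_le_one fun r hr => ?_
      rw [Real.norm_eq_abs]
      exact (Ft_bounds ht (spec_resolv hT hr).1 (spec_resolv hT hr).2).1
    have hid : cfc (fun r : ℝ => r) R = R := cfc_id' ℝ R
    have hA2 : ∀ t, 0 < t → ‖A t * R - (1 - R) * R‖ ≤ t / 2 := by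
      intro t ht
      have e1 : A t * R - (1 - R) * R = cfc (fun r => Ft t r * r - (1 - r) * r) R := by
        rw [cfc_sub (fun r : ℝ => Ft t r * r) (fun r => (1 - r) * r) R
          (by have := Ft_cont t; fun_prop) (by fun_prop),
          cfc_mul (Ft t) (fun r : ℝ => r) R (Ft_cont t).continuousOn (by fun_prop),
          cfc_mul (fun r : ℝ => 1 - r) (fun r : ℝ => r) R (by fun_prop) (by fun_prop),
          cfc_sub (fun _ : ℝ => (1 : ℝ)) (fun r : ℝ => r) R (by fun_prop) (by fun_prop),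
          cfc_const_one ℝ R, hid]
      rw [e1]
      refine norm_cfc_le (by positivity) fun r hr => ?_
      rw [Real.norm_eq_abs]
      exact (Ft_bounds ht (spec_resolv hT hr).1 (spec_resolv hT hr).2).2
    have hlim := strong_lim hA1 (resolv_range_dense hT) hA2 v
    have eg : (1 - R) v = g := by
      rw [sub_apply, one_apply_eq_self, hRv, hv]; abel
    rw [eg] at hlim
    refine hlim.congr' ?_
    filter_upwards [self_mem_nhdsWithin] with t ht
    have ht' : 0 < t := ht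
    have e2 : A t = (t⁻¹ : ℝ) • (R - cfc (ft t) R * R) := by
      change cfc (fun r => t⁻¹ * (r - ft t r * r)) R = _
      rw [cfc_const_mul (t⁻¹) (fun r => r - ft t r * r) R (by have := ft_cont t; fun_prop),
        cfc_sub (fun r : ℝ => r) (fun r => ft t r * r) R (by fun_prop)
          (by have := ft_cont t; fun_prop),
        cfc_mul (ft t) (fun r : ℝ => r) R (ft_cont t).continuousOn (by fun_prop), hid]
    rw [e2, heat, if_neg (not_le.mpr ht'), smul_apply, sub_apply, mul_apply_eq_comp, hRv]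
    rw [← Complex.ofReal_inv, Complex.coe_smul]

/-- Summary: the heat semigroup exists, and it never converges uniformly. -/
theorem final (hm : 0 < m) (hT : IsTracialTuple x Ω) (hF : FiniteFisher x Ω) :
    (∃ φ : ℝ → H →L[ℂ] H, IsHeatSemigroup x Ω φ) ∧
      ∀ φ : ℝ → H →L[ℂ] H, IsHeatSemigroup x Ω φ →
        ¬ Tendsto (ballDist x Ω φ) (𝓝[>] 0) (𝓝 0) :=
  ⟨⟨heat x Ω, heat_isHeat hT⟩, fun φ hφ => not_uniform hm hT hF φ hφ⟩

end H203R3.FD
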