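import Pool.Agent.H203R3.FD.Bound

open scoped InnerProductSpace TensorProduct Topology
open Filter Polynomial

set_option linter.unusedSectionVars false

namespace H203R3.FD

variable {H : Type*} [NormedAddCommGroup H] [InnerProductSpace ℂ H] [CompleteSpace H]

section Semigroup

variable {φ : ℝ → H →L[ℂ] H}

theorem semi_step (hadd : ∀ s, 0 ≤ s → ∀ t, 0 ≤ t → φ (s + t) = φ s * φ t)
    (h0 : φ 0 = 1)
    (hc : ∀ t, 0 ≤ t → ‖φ t‖ ≤ 1) (hs : ∀ t, 0 ≤ t → IsSelfAdjoint (φ t))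
    (h : H) {s : ℝ} (hs0 : 0 ≤ s) (j : ℕ) :
    ‖h - φ (j * s) h‖ ≤ j * ‖h - φ s h‖ ∧
    j * (⟪h - φ s h, h⟫_ℂ).re - ((j : ℝ) ^ 2 / 2) * ‖h - φ s h‖ ^ 2 ≤
      (⟪h - φ (j * s) h, h⟫_ℂ).re := by
  induction j with
  | zero => simp [h0]
  | succ j ih =>
    have hjs : 0 ≤ (j : ℝ) * s := by positivity
    have e1 : h - φ ((j + 1 : ℕ) * s) h = (h - φ (j * s) h) + φ (j * s) (h - φ s h) := by
      have : ((j + 1 : ℕ) : ℝ) * s = j * s + s := by push_cast; ring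
      rw [this, hadd _ hjs _ hs0, mul_apply_eq_comp, map_sub]; abel
    refine ⟨?_, ?_⟩
    · rw [e1]
      refine (norm_add_le _ _).trans ?_
      have : ‖φ (j * s) (h - φ s h)‖ ≤ ‖h - φ s h‖ :=
        (ContinuousLinearMap.le_opNorm _ _).trans
          (mul_le_of_le_one_left (norm_nonneg _) (hc _ hjs))
      push_cast
      nlinarith [ih.1]
    · rw [e1, inner_add_left, Complex.add_re]
      have e2 : ⟪φ (j * s) (h - φ s h), h⟫_ℂ = ⟪h - φ s h, h⟫_ℂ -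
          ⟪h - φ s h, h - φ (j * s) h⟫_ℂ := by
        rw [← ContinuousLinearMap.adjoint_inner_right, ← ContinuousLinearMap.star_eq_adjoint,
          (hs _ hjs).star_eq, ← inner_sub_right]
        congr 1; abel
      have e3 : (⟪h - φ s h, h - φ (j * s) h⟫_ℂ).re ≤ ‖h - φ s h‖ * (j * ‖h - φ s h‖) := by
        refine (Complex.re_le_norm _).trans ((norm_inner_le_norm _ _).trans ?_)
        gcongr
        exact ih.1
      rw [e2, Complex.sub_re]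
      push_cast
      nlinarith [ih.2, sq_nonneg ‖h - φ s h‖]

theorem semi_ineq (hadd : ∀ s, 0 ≤ s → ∀ t, 0 ≤ t → φ (s + t) = φ s * φ t)
    (h0 : φ 0 = 1)
    (hc : ∀ t, 0 ≤ t → ‖φ t‖ ≤ 1) (hs : ∀ t, 0 ≤ t → IsSelfAdjoint (φ t))
    {h g : H}
    (hg : Tendsto (fun t : ℝ => (t⁻¹ : ℂ) • (h - φ t h)) (𝓝[>] 0) (𝓝 g)) {t : ℝ} (ht : 0 < t) :
    t * (⟪g, h⟫_ℂ).re - t ^ 2 / 2 * ‖g‖ ^ 2 ≤ (⟪h - φ t h, h⟫_ℂ).re := by
  have hseq : Tendsto (fun N : ℕ => t / ((N : ℝ) + 1)) atTop (𝓝[>] 0) := by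
    refine tendsto_nhdsWithin_iff.mpr ⟨?_, Eventually.of_forall fun N => ?_⟩
    · have := tendsto_one_div_add_atTop_nhds_zero_nat (𝕜 := ℝ)
      have := this.const_mul t
      simpa [div_eq_mul_inv] using this
    · exact div_pos ht (by positivity)
  have hlim := hg.comp hseq
  have l1 : Tendsto (fun N : ℕ => t * (⟪((t / ((N : ℝ) + 1) : ℝ)⁻¹ : ℂ) •
      (h - φ (t / ((N : ℝ) + 1)) h), h⟫_ℂ).re - t ^ 2 / 2 * ‖((t / ((N : ℝ) + 1) : ℝ)⁻¹ : ℂ) •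
      (h - φ (t / ((N : ℝ) + 1)) h)‖ ^ 2) atTop
      (𝓝 (t * (⟪g, h⟫_ℂ).re - t ^ 2 / 2 * ‖g‖ ^ 2)) := by
    refine Tendsto.sub ?_ ?_
    · refine Tendsto.const_mul t ?_
      exact (Complex.continuous_re.tendsto _).comp (Filter.Tendsto.inner hlim tendsto_const_nhds)
    · exact (hlim.norm.pow 2).const_mul _
  refine le_of_tendsto l1 (Eventually.of_forall fun N => ?_)
  have hN : (0 : ℝ) < (N : ℝ) + 1 := by positivity
  have key := (semi_step hadd h0 hc hs h (s := t / ((N : ℝ) + 1)) (by positivity) (N + 1)).2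
  have e1 : ((N + 1 : ℕ) : ℝ) * (t / ((N : ℝ) + 1)) = t := by push_cast; field_simp
  rw [e1] at key
  refine le_trans (le_of_eq ?_) key
  set d := h - φ (t / ((N : ℝ) + 1)) h with hd
  have e2 : ((t / ((N : ℝ) + 1) : ℝ)⁻¹ : ℂ) = (((((N : ℝ) + 1) / t) : ℝ) : ℂ) := by
    rw [← Complex.ofReal_inv, inv_div]
  rw [e2, norm_smul, inner_smul_left, Complex.conj_ofReal, Complex.re_ofReal_mul,
    Complex.norm_real, Real.norm_eq_abs, mul_pow, sq_abs]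
  push_cast
  field_simp

end Semigroup

variable {m : ℕ} {x : Fin m → H →L[ℂ] H} {Ω : H}

theorem fisher_alg {J : H} {i : Fin m}
    (hJ : ∀ P : Poly m, ⟪J, evV x Ω P⟫_ℂ = ⟪((Ω ⊗ₜ[ℂ] Ω : H ⊗[ℂ] H) : HT H), dK x Ω i P⟫_ℂ) :
    ∀ P : Poly m, ⟪J, ev x P Ω⟫_ℂ = ⟪(Ω ⊗ₜ[ℂ] Ω : H ⊗[ℂ] H), dV x Ω i P⟫_ℂ := by
  intro P
  have := hJ P
  unfold dK at this
  rw [UniformSpace.Completion.inner_coe] at this
  exact this

/-- The key elements: unitaries `y_n ∈ N` with `y_n Ω` in the domain of the Laplacian,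
`⟨Δ y_n, y_n⟩ ≥ c n` and `‖Δ y_n‖ ≤ C n`. -/
theorem exists_elements (hT : IsTracialTuple x Ω) (i₀ : Fin m) {J : H}
    (hJ : ∀ P : Poly m, ⟪J, ev x P Ω⟫_ℂ = ⟪(Ω ⊗ₜ[ℂ] Ω : H ⊗[ℂ] H), dV x Ω i₀ P⟫_ℂ) :
    ∃ c C : ℝ, 0 < c ∧ 0 ≤ C ∧ ∀ n : ℕ, ∃ y ∈ WStar x, ‖y‖ ≤ 1 ∧ ∃ g : H,
      LapRel x Ω (y Ω) g ∧ c * n ≤ (⟪g, y Ω⟫_ℂ).re ∧ ‖g‖ ≤ C * n := by
  set l : ℝ := ‖x i₀‖ + 1 with hl
  have hlpos : 0 < l := by positivity
  have hlb : ‖x i₀‖ < |l| := by rw [abs_of_pos hlpos, hl]; linarith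
  obtain ⟨R, U, h⟩ := Cay.exists (x i₀) hlb
  have hR0 : R Ω ≠ 0 := by
    intro h0
    have h1 : ((x i₀ - (Complex.I * l : ℂ) • (1 : H →L[ℂ] H)) * R) Ω = Ω := by
      rw [h.inv', one_apply_eq_self]
    rw [mul_apply_eq_comp, h0, map_zero] at h1
    have := hT.norm_one
    rw [← h1, norm_zero] at this
    exact zero_ne_one this
  have hRn : 0 < ‖R Ω‖ := norm_pos_iff.mpr hR0
  refine ⟨4 * l ^ 2 * ‖R Ω‖ ^ 4, 6 * ‖J‖ / |l|, by positivity, by positivity, fun n => ?_⟩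
  refine ⟨U ^ n, W_pow (h.U_mem hT) n, ?_, ?_⟩
  · refine ContinuousLinearMap.opNorm_le_bound _ zero_le_one fun v => ?_
    rw [h.norm_U_pow_apply hT, one_mul]
  obtain ⟨k, hk1, hk2⟩ := exists_adj (x := x) (Ω := Ω) (i₀ := i₀) (zn Ω R U l n)
    ((6 * ‖J‖ / |l|) * n) (by positivity) (h.bound_zn hT hJ n)
  obtain ⟨p, hp1, hp2⟩ := h.cl_pow hT n
  refine ⟨k, ?_, ?_, hk1⟩
  · refine ⟨fun i => if i = i₀ then ((zn Ω R U l n : H ⊗[ℂ] H) : HT H) else 0,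
      fun i => if i = i₀ then k else 0, ⟨fun j => pf i₀ (p j), ?_, ?_⟩, ?_, ?_⟩
    · have := tendsto_ev hp1 Ω
      simpa only [evV_apply, ev_pf] using this
    · intro i
      by_cases hi : i = i₀
      · subst hi
        simp only [if_true]
        have : Tendsto (fun j => ((D1 x Ω i (p j) : H ⊗[ℂ] H) : HT H)) atTop
            (𝓝 ((zn Ω R U l n : H ⊗[ℂ] H) : HT H)) :=
          ((UniformSpace.Completion.continuous_coe (H ⊗[ℂ] H)).tendsto _).comp hp2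
        exact this
      · simp only [if_neg hi]
        have : ∀ j, dK x Ω i (pf i₀ (p j)) = 0 := by
          intro j
          unfold dK
          rw [dV_pf_ne x Ω i₀ i hi]
          rfl
        simp only [this]
        exact tendsto_const_nhds
    · intro i Q
      by_cases hi : i = i₀
      · subst hi
        simp only [if_true]
        rw [hk2]
        unfold dK
        rw [UniformSpace.Completion.inner_coe]
      · simp only [if_neg hi, inner_zero_left]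
    · simp
  · have h1 : Tendsto (fun j => ⟪k, ev x (pf i₀ (p j)) Ω⟫_ℂ) atTop (𝓝 ⟪k, (U ^ n) Ω⟫_ℂ) := by
      have := tendsto_ev hp1 Ω
      simp only [ev_pf]
      exact (tendsto_const_nhds (x := k)).inner this
    have h2 : Tendsto (fun j => ⟪zn Ω R U l n, D1 x Ω i₀ (p j)⟫_ℂ) atTop
        (𝓝 ⟪zn Ω R U l n, zn Ω R U l n⟫_ℂ) := tendsto_inner_T _ hp2
    have h3 : ∀ j, ⟪k, ev x (pf i₀ (p j)) Ω⟫_ℂ = ⟪zn Ω R U l n, D1 x Ω i₀ (p j)⟫_ℂ :=
      fun j => hk2 (pf i₀ (p j))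
    simp only [h3] at h1
    rw [tendsto_nhds_unique h1 h2, reST]
    exact h.norm_zn hT n

theorem ballDist_bdd {φ : ℝ → H →L[ℂ] H} (hΩ : ‖Ω‖ = 1) {t : ℝ} (hφ : ‖φ t‖ ≤ 1) :
    BddAbove {r : ℝ | ∃ y ∈ WStar x, ‖y‖ ≤ 1 ∧ r = ‖φ t (y Ω) - y Ω‖} := by
  refine ⟨2, ?_⟩
  rintro r ⟨y, -, hy, rfl⟩
  have h1 : ‖y Ω‖ ≤ 1 := by
    refine (y.le_opNorm Ω).trans ?_
    rw [hΩ, mul_one]; exact hy
  have h2 : ‖φ t (y Ω)‖ ≤ 1 := by
    refine ((φ t).le_opNorm _).trans ?_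
    calc ‖φ t‖ * ‖y Ω‖ ≤ 1 * 1 := by gcongr
      _ = 1 := by ring
  refine (norm_sub_le _ _).trans ?_
  linarith

/-- For a tuple with finite free Fisher information the heat semigroup of the free Laplacian
never converges uniformly to the identity on the unit ball. -/
theorem never_uniform (hm : 0 < m) (hT : IsTracialTuple x Ω) (hF : FiniteFisher x Ω)
    (φ : ℝ → H →L[ℂ] H) (hφ : IsHeatSemigroup x Ω φ) :
    ∃ ε : ℝ, 0 < ε ∧ ∃ T : ℕ → ℝ, (∀ n, 0 < T n) ∧ Tendsto T atTop (𝓝 0) ∧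
      ∀ n, ε ≤ ballDist x Ω φ (T n) := by
  obtain ⟨J, hJ⟩ := hF
  let i₀ : Fin m := ⟨0, hm⟩
  obtain ⟨c, C, hc, hC, hel⟩ := exists_elements hT i₀ (fisher_alg (hJ i₀))
  have hC0 : 0 < C := by
    obtain ⟨y, hyW, hy, g, -, hg1, hg2⟩ := hel 1
    have h1 : ‖y Ω‖ ≤ 1 := by
      refine (y.le_opNorm Ω).trans ?_
      rw [hT.norm_one, mul_one]; exact hy
    have h2 : (⟪g, y Ω⟫_ℂ).re ≤ ‖g‖ * 1 :=
      (Complex.re_le_norm _).trans ((norm_inner_le_norm _ _).trans (by gcongr))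
    push_cast at hg1 hg2
    linarith
  refine ⟨c ^ 2 / (2 * C ^ 2), by positivity, fun n => c / (C ^ 2 * ((n : ℝ) + 1)),
    fun n => by positivity, ?_, fun n => ?_⟩
  · have := (tendsto_one_div_add_atTop_nhds_zero_nat (𝕜 := ℝ)).const_mul (c / C ^ 2)
    rw [mul_zero] at this
    refine this.congr fun n => ?_
    field_simp
  · obtain ⟨y, hyW, hy, g, hL, hg1, hg2⟩ := hel (n + 1)
    set t : ℝ := c / (C ^ 2 * ((n : ℝ) + 1)) with ht
    have htp : 0 < t := by rw [ht]; positivity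
    have h1 : ‖y Ω‖ ≤ 1 := by
      refine (y.le_opNorm Ω).trans ?_
      rw [hT.norm_one, mul_one]; exact hy
    have key := semi_ineq hφ.add hφ.zero hφ.contraction hφ.selfAdjoint
      (hφ.generator _ _ hL) htp
    have h2 : (⟪y Ω - φ t (y Ω), y Ω⟫_ℂ).re ≤ ‖φ t (y Ω) - y Ω‖ := by
      refine (Complex.re_le_norm _).trans ((norm_inner_le_norm _ _).trans ?_)
      rw [norm_sub_rev]
      exact mul_le_of_le_one_right (norm_nonneg _) h1
    have h3 : ‖φ t (y Ω) - y Ω‖ ≤ ballDist x Ω φ t :=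
      le_csSup (ballDist_bdd hT.norm_one (hφ.contraction t htp.le)) ⟨y, hyW, hy, rfl⟩
    refine le_trans ?_ h3
    refine le_trans ?_ h2
    refine le_trans ?_ key
    push_cast at hg1 hg2
    have hn : (0 : ℝ) < (n : ℝ) + 1 := by positivity
    have a1 : t * (c * ((n : ℝ) + 1)) ≤ t * (⟪g, y Ω⟫_ℂ).re := by gcongr
    have a2 : t ^ 2 / 2 * ‖g‖ ^ 2 ≤ t ^ 2 / 2 * (C * ((n : ℝ) + 1)) ^ 2 := by gcongr
    have a3 : t * (c * ((n : ℝ) + 1)) = c ^ 2 / C ^ 2 := by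
      rw [ht]; field_simp
    have a4 : t ^ 2 / 2 * (C * ((n : ℝ) + 1)) ^ 2 = c ^ 2 / (2 * C ^ 2) := by
      rw [ht]; field_simp
    have a5 : c ^ 2 / C ^ 2 = 2 * (c ^ 2 / (2 * C ^ 2)) := by field_simp
    rw [a3] at a1
    rw [a4] at a2
    linarith

/-- The heat semigroup of the free Laplacian does not converge uniformly on the unit ball. -/
theorem not_uniform (hm : 0 < m) (hT : IsTracialTuple x Ω) (hF : FiniteFisher x Ω)
    (φ : ℝ → H →L[ℂ] H) (hφ : IsHeatSemigroup x Ω φ) :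
    ¬ Tendsto (ballDist x Ω φ) (𝓝[>] 0) (𝓝 0) := by
  intro hlim
  obtain ⟨ε, hε, T, hT0, hTl, hTb⟩ := never_uniform hm hT hF φ hφ
  have h1 : Tendsto T atTop (𝓝[>] 0) :=
    tendsto_nhdsWithin_iff.mpr ⟨hTl, Eventually.of_forall hT0⟩
  have h2 := hlim.comp h1
  have h3 : ε ≤ 0 := ge_of_tendsto' h2 hTb
  linarith

end H203R3.FD
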