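import Pool.Agent.H203R3.FD.Trace

open scoped InnerProductSpace TensorProduct Topology
open Filter Polynomial

set_option linter.unusedSectionVars false

namespace H203R3.FD

variable {H : Type*} [NormedAddCommGroup H] [InnerProductSpace ℂ H] [CompleteSpace H]
variable {m : ℕ} {x : Fin m → H →L[ℂ] H} {Ω : H} {i₀ : Fin m}

/-- `h_n = τ(R U^n)` -/
noncomputable def hn (Ω : H) (R U : H →L[ℂ] H) (n : ℕ) : ℂ := ⟪star R Ω, (U ^ n) Ω⟫_ℂ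

/-- the operators `C_n = ∑_{k<n} h_{n-1-k} U^k R` -/
noncomputable def Cn (Ω : H) (R U : H →L[ℂ] H) : ℕ → (H →L[ℂ] H)
  | 0 => 0
  | n + 1 => U * Cn Ω R U n + (hn Ω R U n) • R

/-- `t_n = ∂^*(U^n ⊗ 1)` -/
noncomputable def tn (Ω J : H) (R U : H →L[ℂ] H) (l : ℝ) (n : ℕ) : H :=
  (U ^ n) J + (2 * Complex.I * l) • (Cn Ω R U n Ω)

/-- `ζ_n = ∂ (U^n)` -/
noncomputable def zn (Ω : H) (R U : H →L[ℂ] H) (l : ℝ) : ℕ → H ⊗[ℂ] H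
  | 0 => 0
  | n + 1 => (-(2 * Complex.I * l)) • ((R Ω) ⊗ₜ ((U ^ n) (R Ω))) + tm U 1 (zn Ω R U l n)

variable {R U : H →L[ℂ] H} {l : ℝ} {J : H}

theorem tn_zero : tn Ω J R U l 0 = J := by simp [tn, Cn]

theorem tn_succ (n : ℕ) : tn Ω J R U l (n + 1) =
    U (tn Ω J R U l n) + (2 * Complex.I * l * hn Ω R U n) • R Ω := by
  simp only [tn, Cn, pow_succ', mul_apply_eq_comp, add_apply,
    map_add, map_smul, smul_apply, smul_add, smul_smul]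
  abel

theorem Cay.cl_R (h : Cay (x i₀) l R U) (hT : IsTracialTuple x Ω) :
    Cl x Ω i₀ R (-((R Ω) ⊗ₜ (R Ω))) := by
  refine Cl.res hT.norm_one (z := Complex.I * l) ?_ h.inv
  simpa using h.bd

theorem Cay.cl_U (h : Cay (x i₀) l R U) (hT : IsTracialTuple x Ω) :
    Cl x Ω i₀ U ((-(2 * Complex.I * l)) • ((R Ω) ⊗ₜ (R Ω))) := by
  have := (Cl.one (x := x) (Ω := Ω) (i₀ := i₀)).add ((h.cl_R hT).smul (2 * Complex.I * l))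
  rw [← h.U_eq, zero_add, smul_neg, ← neg_smul] at this
  exact this

theorem Cay.cl_pow (h : Cay (x i₀) l R U) (hT : IsTracialTuple x Ω) (n : ℕ) :
    Cl x Ω i₀ (U ^ n) (zn Ω R U l n) := by
  induction n with
  | zero => simpa [zn] using Cl.one (x := x) (Ω := Ω) (i₀ := i₀)
  | succ n ih =>
    have h1 := (h.cl_U hT).mul ih
    rw [← pow_succ', map_smul, tm_tmul, one_apply_eq_self] at h1
    exact h1

theorem Cay.R_mem (h : Cay (x i₀) l R U) (hT : IsTracialTuple x Ω) : R ∈ WStar x :=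
  (h.cl_R hT).mem_W

theorem Cay.U_mem (h : Cay (x i₀) l R U) (hT : IsTracialTuple x Ω) : U ∈ WStar x :=
  (h.cl_U hT).mem_W

/-- partial trace of `ζ_n` -/
theorem Cay.inner_zn (h : Cay (x i₀) l R U) (hT : IsTracialTuple x Ω) (n : ℕ) : ∀ ξ : H,
    ⟪(ξ ⊗ₜ[ℂ] Ω : H ⊗[ℂ] H), zn Ω R U l n⟫_ℂ =
      (-(2 * Complex.I * l)) * ⟪ξ, Cn Ω R U n Ω⟫_ℂ := by
  induction n with
  | zero => intro ξ; simp [zn, Cn]
  | succ n ih =>
    intro ξ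
    have h1 : ⟪(ξ ⊗ₜ[ℂ] Ω : H ⊗[ℂ] H), tm U 1 (zn Ω R U l n)⟫_ℂ =
        ⟪((star U ξ) ⊗ₜ[ℂ] Ω : H ⊗[ℂ] H), zn Ω R U l n⟫_ℂ := by
      have := inner_tm (star U) 1 (ξ ⊗ₜ[ℂ] Ω : H ⊗[ℂ] H) (zn Ω R U l n)
      rw [star_star, star_one, tm_tmul, one_apply_eq_self] at this
      exact this.symm
    have h2 : ⟪Ω, (U ^ n) (R Ω)⟫_ℂ = hn Ω R U n := by
      unfold hn
      have : (U ^ n) (R Ω) = R ((U ^ n) Ω) := by
        rw [← mul_apply_eq_comp, ← mul_apply_eq_comp, h.pow_comm]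
      rw [this, ContinuousLinearMap.star_eq_adjoint, ContinuousLinearMap.adjoint_inner_left]
    have h3 : ⟪(ξ ⊗ₜ[ℂ] Ω : H ⊗[ℂ] H),
        (-(2 * Complex.I * l)) • ((R Ω) ⊗ₜ[ℂ] ((U ^ n) (R Ω)) : H ⊗[ℂ] H)⟫_ℂ =
        (-(2 * Complex.I * l)) * (⟪ξ, R Ω⟫_ℂ * ⟪Ω, (U ^ n) (R Ω)⟫_ℂ) := by
      rw [← TensorProduct.inner_tmul]
      exact inner_smul_right (𝕜 := ℂ) (E := H ⊗[ℂ] H) _ _ _
    have h4 : zn Ω R U l (n + 1) =
      (-(2 * Complex.I * l)) • ((R Ω) ⊗ₜ ((U ^ n) (R Ω))) + tm U 1 (zn Ω R U l n) := rfl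
    rw [h4, inner_add_right, h1, ih, h3, h2]
    have h5 : Cn Ω R U (n + 1) Ω = U (Cn Ω R U n Ω) + hn Ω R U n • R Ω := rfl
    rw [h5, inner_add_right, inner_smul_right, ContinuousLinearMap.star_eq_adjoint,
      ContinuousLinearMap.adjoint_inner_left]
    ring

theorem tendsto_inner_T (w : H ⊗[ℂ] H) {z : ℕ → H ⊗[ℂ] H} {z₀ : H ⊗[ℂ] H}
    (hz : Tendsto z atTop (𝓝 z₀)) : Tendsto (fun n => ⟪w, z n⟫_ℂ) atTop (𝓝 ⟪w, z₀⟫_ℂ) :=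
  (tendsto_const_nhds (x := w)).inner hz

theorem tendsto_ev {T : ℕ → H →L[ℂ] H} {T₀ : H →L[ℂ] H} (hz : Tendsto T atTop (𝓝 T₀)) (v : H) :
    Tendsto (fun n => T n v) atTop (𝓝 (T₀ v)) := by
  have : Continuous (fun T : H →L[ℂ] H => T v) := by fun_prop
  exact (this.tendsto T₀).comp hz

/-- `⟨t_n, Q Ω⟩ = ⟨U^n ⊗ 1, ∂ Q⟩` -/
theorem Cay.inner_tn (h : Cay (x i₀) l R U) (hT : IsTracialTuple x Ω)
    (hJ : ∀ P : Poly m, ⟪J, ev x P Ω⟫_ℂ = ⟪(Ω ⊗ₜ[ℂ] Ω : H ⊗[ℂ] H), dV x Ω i₀ P⟫_ℂ) (n : ℕ) :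
    ∀ Q : Poly m, ⟪tn Ω J R U l n, ev x Q Ω⟫_ℂ =
      ⟪(((U ^ n) Ω) ⊗ₜ[ℂ] Ω : H ⊗[ℂ] H), dV x Ω i₀ Q⟫_ℂ := by
  induction n with
  | zero => intro Q; rw [tn_zero, hJ]; simp
  | succ n ih =>
    intro Q
    have hX := hT.selfAdjoint i₀
    have hs := h.adj hX
    obtain ⟨p, hp1, hp2⟩ := hs.cl_U hT
    -- rewrite the right-hand side
    have e1 : ⟪(((U ^ (n + 1)) Ω) ⊗ₜ[ℂ] Ω : H ⊗[ℂ] H), dV x Ω i₀ Q⟫_ℂ =
        ⟪(((U ^ n) Ω) ⊗ₜ[ℂ] Ω : H ⊗[ℂ] H), tm (star U) 1 (dV x Ω i₀ Q)⟫_ℂ := by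
      have := inner_tm U 1 (((U ^ n) Ω) ⊗ₜ[ℂ] Ω : H ⊗[ℂ] H) (dV x Ω i₀ Q)
      rw [star_one, tm_tmul, one_apply_eq_self, ← mul_apply_eq_comp, ← pow_succ'] at this
      exact this
    have e2 : ∀ j, ⟪(((U ^ n) Ω) ⊗ₜ[ℂ] Ω : H ⊗[ℂ] H), tm (aeval (x i₀) (p j)) 1 (dV x Ω i₀ Q)⟫_ℂ =
        ⟪tn Ω J R U l n, (aeval (x i₀) (p j)) (ev x Q Ω)⟫_ℂ -
          ⟪(((U ^ n) Ω) ⊗ₜ[ℂ] (star (ev x Q) Ω) : H ⊗[ℂ] H), D1 x Ω i₀ (p j)⟫_ℂ := by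
      intro j
      have a1 := ih (pf i₀ (p j) * Q)
      rw [dV_mul, inner_add_right, inner_evT_right hT, map_mul, mul_apply_eq_comp, ev_pf,
        ← dV_apply, ← D1_apply] at a1
      rw [a1]; ring
    have l1 : Tendsto (fun j => ⟪(((U ^ n) Ω) ⊗ₜ[ℂ] Ω : H ⊗[ℂ] H),
        tm (aeval (x i₀) (p j)) 1 (dV x Ω i₀ Q)⟫_ℂ) atTop
        (𝓝 ⟪(((U ^ n) Ω) ⊗ₜ[ℂ] Ω : H ⊗[ℂ] H), tm (star U) 1 (dV x Ω i₀ Q)⟫_ℂ) :=
      tendsto_inner_T _ (tendsto_tm_left hp1 tendsto_const_nhds)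
    have l2 : Tendsto (fun j => ⟪tn Ω J R U l n, (aeval (x i₀) (p j)) (ev x Q Ω)⟫_ℂ -
          ⟪(((U ^ n) Ω) ⊗ₜ[ℂ] (star (ev x Q) Ω) : H ⊗[ℂ] H), D1 x Ω i₀ (p j)⟫_ℂ) atTop
        (𝓝 (⟪tn Ω J R U l n, (star U) (ev x Q Ω)⟫_ℂ -
          ⟪(((U ^ n) Ω) ⊗ₜ[ℂ] (star (ev x Q) Ω) : H ⊗[ℂ] H),
            (-(2 * Complex.I * ((-l : ℝ) : ℂ))) • ((star R Ω) ⊗ₜ[ℂ] (star R Ω) : H ⊗[ℂ] H)⟫_ℂ)) :=
      ((tendsto_const_nhds (x := tn Ω J R U l n)).inner (tendsto_ev hp1 _)).sub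
        (tendsto_inner_T _ hp2)
    simp only [e2] at l1
    have e3 := tendsto_nhds_unique l1 l2
    rw [e1, e3]
    have e4 : ⟪(((U ^ n) Ω) ⊗ₜ[ℂ] (star (ev x Q) Ω) : H ⊗[ℂ] H),
            (-(2 * Complex.I * ((-l : ℝ) : ℂ))) • ((star R Ω) ⊗ₜ[ℂ] (star R Ω) : H ⊗[ℂ] H)⟫_ℂ =
        (2 * Complex.I * l) * (⟪(U ^ n) Ω, star R Ω⟫_ℂ * ⟪star (ev x Q) Ω, star R Ω⟫_ℂ) := by
      rw [← TensorProduct.inner_tmul]
      have : (-(2 * Complex.I * ((-l : ℝ) : ℂ))) = 2 * Complex.I * l := by push_cast; ring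
      rw [this]
      exact inner_smul_right (𝕜 := ℂ) (E := H ⊗[ℂ] H) _ _ _
    have e5 : ⟪star (ev x Q) Ω, star R Ω⟫_ℂ = ⟪R Ω, ev x Q Ω⟫_ℂ := by
      rw [ContinuousLinearMap.star_eq_adjoint, ContinuousLinearMap.adjoint_inner_left,
        hT.trace _ (ev_mem_W Q) _ (W_star hT.selfAdjoint (h.R_mem hT)),
        ContinuousLinearMap.star_eq_adjoint, ContinuousLinearMap.adjoint_inner_right]
    rw [e4, e5, tn_succ, inner_add_left, inner_smul_left]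
    have e6 : ⟪U (tn Ω J R U l n), ev x Q Ω⟫_ℂ = ⟪tn Ω J R U l n, (star U) (ev x Q Ω)⟫_ℂ := by
      rw [ContinuousLinearMap.star_eq_adjoint, ContinuousLinearMap.adjoint_inner_right]
    have e7 : (starRingEnd ℂ) (2 * Complex.I * l * hn Ω R U n) =
        -(2 * Complex.I * l) * ⟪(U ^ n) Ω, star R Ω⟫_ℂ := by
      unfold hn
      rw [map_mul, inner_conj_symm]
      congr 1
      simp
      left
      exact map_ofNat (starRingEnd ℂ) 2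
    rw [e6, e7]
    ring

theorem Cay.norm_U_apply (h : Cay (x i₀) l R U) (hT : IsTracialTuple x Ω) (v : H) :
    ‖U v‖ = ‖v‖ := by
  have h1 : ⟪U v, U v⟫_ℂ = ⟪v, v⟫_ℂ := by
    rw [← ContinuousLinearMap.adjoint_inner_right, ← ContinuousLinearMap.star_eq_adjoint,
      ← mul_apply_eq_comp, h.starU_mul_U (hT.selfAdjoint i₀), one_apply_eq_self]
  have h2 := congrArg Complex.re h1
  rw [reS, reS] at h2
  exact (sq_eq_sq₀ (norm_nonneg _) (norm_nonneg _)).mp h2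

theorem Cay.norm_U_pow_apply (h : Cay (x i₀) l R U) (hT : IsTracialTuple x Ω) (n : ℕ) (v : H) :
    ‖(U ^ n) v‖ = ‖v‖ := by
  induction n with
  | zero => simp
  | succ n ih => rw [pow_succ', mul_apply_eq_comp, h.norm_U_apply hT, ih]

/-- Tricomi type identity: the norms of `t_n` are constant. -/
theorem Cay.norm_tn (h : Cay (x i₀) l R U) (hT : IsTracialTuple x Ω)
    (hJ : ∀ P : Poly m, ⟪J, ev x P Ω⟫_ℂ = ⟪(Ω ⊗ₜ[ℂ] Ω : H ⊗[ℂ] H), dV x Ω i₀ P⟫_ℂ) (n : ℕ) :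
    ‖tn Ω J R U l n‖ = ‖J‖ := by
  induction n with
  | zero => rw [tn_zero]
  | succ n ih =>
    have hX := hT.selfAdjoint i₀
    have hs := h.adj hX
    -- `⟨t_n, R^* Ω⟩`
    have e1 : ⟪tn Ω J R U l n, star R Ω⟫_ℂ = -(⟪(U ^ n) Ω, star R Ω⟫_ℂ * ⟪Ω, star R Ω⟫_ℂ) := by
      obtain ⟨p, hp1, hp2⟩ := hs.cl_R hT
      have l1 : Tendsto (fun j => ⟪tn Ω J R U l n, (aeval (x i₀) (p j)) Ω⟫_ℂ) atTop
          (𝓝 ⟪tn Ω J R U l n, star R Ω⟫_ℂ) :=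
        (tendsto_const_nhds (x := tn Ω J R U l n)).inner (tendsto_ev hp1 _)
      have l2 : Tendsto (fun j => ⟪(((U ^ n) Ω) ⊗ₜ[ℂ] Ω : H ⊗[ℂ] H), D1 x Ω i₀ (p j)⟫_ℂ) atTop
          (𝓝 ⟪(((U ^ n) Ω) ⊗ₜ[ℂ] Ω : H ⊗[ℂ] H), -((star R Ω) ⊗ₜ (star R Ω))⟫_ℂ) :=
        tendsto_inner_T _ hp2
      have e2 : ∀ j, ⟪tn Ω J R U l n, (aeval (x i₀) (p j)) Ω⟫_ℂ =
          ⟪(((U ^ n) Ω) ⊗ₜ[ℂ] Ω : H ⊗[ℂ] H), D1 x Ω i₀ (p j)⟫_ℂ := by
        intro j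
        rw [← ev_pf, h.inner_tn hT hJ, D1_apply]
      simp only [e2] at l1
      rw [tendsto_nhds_unique l1 l2, inner_neg_right, TensorProduct.inner_tmul]
    have e3 : ⟪U (tn Ω J R U l n), R Ω⟫_ℂ = ⟪tn Ω J R U l n, star R Ω⟫_ℂ := by
      rw [← ContinuousLinearMap.adjoint_inner_right, ← ContinuousLinearMap.star_eq_adjoint,
        ← mul_apply_eq_comp, h.starU_mul_R hX]
    have e4 : (2 * Complex.I * l) * ((‖R Ω‖ ^ 2 : ℝ) : ℂ) = ⟪star R Ω, Ω⟫_ℂ - ⟪Ω, star R Ω⟫_ℂ := by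
      have a1 : ⟪Ω, (R - star R) Ω⟫_ℂ = (2 * Complex.I * l) * ⟪Ω, (star R * R) Ω⟫_ℂ := by
        rw [h.res hX, smul_apply, inner_smul_right]
      rw [mul_apply_eq_comp, ContinuousLinearMap.star_eq_adjoint,
        ContinuousLinearMap.adjoint_inner_right, inner_self_eq_norm_sq_to_K] at a1
      rw [ContinuousLinearMap.star_eq_adjoint, ContinuousLinearMap.adjoint_inner_left]
      rw [sub_apply, inner_sub_right] at a1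
      rw [a1]; push_cast; rfl
    have e5 : l * ‖R Ω‖ ^ 2 = (⟪star R Ω, Ω⟫_ℂ).im := by
      have := congrArg Complex.im e4
      rw [← inner_conj_symm Ω (star R Ω)] at this
      simp only [Complex.sub_im, Complex.conj_im] at this
      rw [show (2 * Complex.I * (l : ℂ)) * ((‖R Ω‖ ^ 2 : ℝ) : ℂ) =
        ((2 * (l * ‖R Ω‖ ^ 2) : ℝ) : ℂ) * Complex.I by push_cast; ring,
        Complex.im_ofReal_mul, Complex.I_im] at this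
      linarith
    set hh : ℂ := hn Ω R U n with hhd
    set h0 : ℂ := ⟪star R Ω, Ω⟫_ℂ with h0d
    have e6 : ⟪(U ^ n) Ω, star R Ω⟫_ℂ = (starRingEnd ℂ) hh := by
      rw [hhd]; unfold hn; rw [inner_conj_symm]
    have e7 : ⟪Ω, star R Ω⟫_ℂ = (starRingEnd ℂ) h0 := by rw [h0d, inner_conj_symm]
    have e8 : ‖tn Ω J R U l (n + 1)‖ ^ 2 = ‖tn Ω J R U l n‖ ^ 2 := by
      rw [tn_succ, @norm_add_sq ℂ, inner_smul_right, e3, e1, e6, e7, norm_smul, h.norm_U_apply hT]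
      have a1 : RCLike.re (2 * Complex.I * (l : ℂ) * hh *
          -((starRingEnd ℂ) hh * (starRingEnd ℂ) h0)) = - (2 * l * Complex.normSq hh * h0.im) := by
        have : 2 * Complex.I * (l : ℂ) * hh * -((starRingEnd ℂ) hh * (starRingEnd ℂ) h0) =
          -(((2 * l * Complex.normSq hh : ℝ) : ℂ) * (Complex.I * (starRingEnd ℂ) h0)) := by
          rw [show 2 * Complex.I * (l : ℂ) * hh * -((starRingEnd ℂ) hh * (starRingEnd ℂ) h0) =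
            -((2 * l * (hh * (starRingEnd ℂ) hh)) * (Complex.I * (starRingEnd ℂ) h0)) by ring,
            Complex.mul_conj]
          push_cast; rfl
        rw [this]
        have b1 : RCLike.re (-(((2 * l * Complex.normSq hh : ℝ) : ℂ) *
          (Complex.I * (starRingEnd ℂ) h0))) =
          -((2 * l * Complex.normSq hh) * (Complex.I * (starRingEnd ℂ) h0).re) := by
          change (-(((2 * l * Complex.normSq hh : ℝ) : ℂ) *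
          (Complex.I * (starRingEnd ℂ) h0))).re = _
          rw [Complex.neg_re, Complex.re_ofReal_mul]
        rw [b1]
        simp
      rw [a1]
      have a2 : ‖2 * Complex.I * (l : ℂ) * hh‖ ^ 2 = 4 * l ^ 2 * Complex.normSq hh := by
        rw [norm_mul, norm_mul, norm_mul, mul_pow, mul_pow, mul_pow, ← Complex.normSq_eq_norm_sq hh]
        simp
        left
        norm_num
      rw [mul_pow, a2, ← e5]
      ring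
    have e9 := (sq_eq_sq₀ (norm_nonneg _) (norm_nonneg _)).mp e8
    rw [e9, ih]

theorem Cay.norm_Cn (h : Cay (x i₀) l R U) (hT : IsTracialTuple x Ω)
    (hJ : ∀ P : Poly m, ⟪J, ev x P Ω⟫_ℂ = ⟪(Ω ⊗ₜ[ℂ] Ω : H ⊗[ℂ] H), dV x Ω i₀ P⟫_ℂ) (n : ℕ) :
    ‖(2 * Complex.I * l) • (Cn Ω R U n Ω)‖ ≤ 2 * ‖J‖ := by
  have h1 : (2 * Complex.I * l) • (Cn Ω R U n Ω) = tn Ω J R U l n - (U ^ n) J := by
    simp [tn]
  rw [h1]
  calc ‖tn Ω J R U l n - (U ^ n) J‖ ≤ ‖tn Ω J R U l n‖ + ‖(U ^ n) J‖ := norm_sub_le _ _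
    _ = 2 * ‖J‖ := by rw [h.norm_tn hT hJ, h.norm_U_pow_apply hT]; ring

end H203R3.FD
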