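import Pool.Agent.H203R3.FD.Defs

open scoped InnerProductSpace TensorProduct Topology
open Filter

namespace H203R3.FD

set_option linter.unusedSectionVars false

variable {H : Type*} [NormedAddCommGroup H] [InnerProductSpace ℂ H] [CompleteSpace H]

/-- the operator `a ⊗ b` on the algebraic tensor product -/
noncomputable def tm (a b : H →L[ℂ] H) : H ⊗[ℂ] H →ₗ[ℂ] H ⊗[ℂ] H :=
  TensorProduct.map a.toLinearMap b.toLinearMap

@[simp] theorem tm_tmul (a b : H →L[ℂ] H) (u v : H) : tm a b (u ⊗ₜ v) = a u ⊗ₜ b v := rfl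

theorem inner_tm (a b : H →L[ℂ] H) (z w : H ⊗[ℂ] H) :
    ⟪tm a b z, w⟫_ℂ = ⟪z, tm (star a) (star b) w⟫_ℂ := by
  induction z using TensorProduct.induction_on with
  | zero => simp
  | add z₁ z₂ h₁ h₂ => rw [map_add, inner_add_left, inner_add_left, h₁, h₂]
  | tmul u v =>
    induction w using TensorProduct.induction_on with
    | zero => simp
    | add w₁ w₂ h₁ h₂ => rw [map_add, inner_add_right, inner_add_right, h₁, h₂]
    | tmul u' v' =>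
      simp only [tm_tmul, TensorProduct.inner_tmul, ContinuousLinearMap.star_eq_adjoint,
        ContinuousLinearMap.adjoint_inner_right]

theorem tm_mul (a b c d : H →L[ℂ] H) (z : H ⊗[ℂ] H) :
    tm (a * c) (b * d) z = tm a b (tm c d z) := by
  induction z using TensorProduct.induction_on with
  | zero => simp
  | add z₁ z₂ h₁ h₂ => rw [map_add, map_add, map_add, h₁, h₂]
  | tmul u v => simp

theorem tm_one_one (z : H ⊗[ℂ] H) : tm 1 1 z = z := by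
  induction z using TensorProduct.induction_on with
  | zero => simp
  | add z₁ z₂ h₁ h₂ => rw [map_add, h₁, h₂]
  | tmul u v => simp

theorem tm_add_left (a a' b : H →L[ℂ] H) (z : H ⊗[ℂ] H) :
    tm (a + a') b z = tm a b z + tm a' b z := by
  induction z using TensorProduct.induction_on with
  | zero => simp
  | add z₁ z₂ h₁ h₂ => rw [map_add, map_add, map_add, h₁, h₂]; abel
  | tmul u v => simp [TensorProduct.add_tmul]

theorem tm_add_right (a b b' : H →L[ℂ] H) (z : H ⊗[ℂ] H) :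
    tm a (b + b') z = tm a b z + tm a b' z := by
  induction z using TensorProduct.induction_on with
  | zero => simp
  | add z₁ z₂ h₁ h₂ => rw [map_add, map_add, map_add, h₁, h₂]; abel
  | tmul u v => simp [TensorProduct.tmul_add]

theorem tm_smul_left (c : ℂ) (a b : H →L[ℂ] H) (z : H ⊗[ℂ] H) :
    tm (c • a) b z = c • tm a b z := by
  induction z using TensorProduct.induction_on with
  | zero => simp
  | add z₁ z₂ h₁ h₂ => rw [map_add, map_add, h₁, h₂, smul_add]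
  | tmul u v => simp [TensorProduct.smul_tmul']

theorem tm_smul_right (c : ℂ) (a b : H →L[ℂ] H) (z : H ⊗[ℂ] H) :
    tm a (c • b) z = c • tm a b z := by
  induction z using TensorProduct.induction_on with
  | zero => simp
  | add z₁ z₂ h₁ h₂ => rw [map_add, map_add, h₁, h₂, smul_add]
  | tmul u v => simp

theorem reS {E : Type*} [NormedAddCommGroup E] [InnerProductSpace ℂ E] (z : E) :
    (⟪z, z⟫_ℂ).re = ‖z‖ ^ 2 := inner_self_eq_norm_sq (𝕜 := ℂ) z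

theorem reST (z : H ⊗[ℂ] H) : (⟪z, z⟫_ℂ).re = ‖z‖ ^ 2 := reS z

theorem exists_defect (a : H →L[ℂ] H) :
    ∃ b : H →L[ℂ] H, ((‖a‖ ^ 2 : ℝ) : ℂ) • (1 : H →L[ℂ] H) = star a * a + star b * b := by
  have h1 : star a * a ≤ algebraMap ℝ (H →L[ℂ] H) (‖a‖ ^ 2) :=
    CStarAlgebra.star_mul_le_algebraMap_norm_sq
  have h2 : 0 ≤ algebraMap ℝ (H →L[ℂ] H) (‖a‖ ^ 2) - star a * a := sub_nonneg.mpr h1
  obtain ⟨b, hb⟩ := CStarAlgebra.nonneg_iff_eq_star_mul_self.mp h2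
  refine ⟨b, ?_⟩
  rw [← hb]
  rw [Algebra.algebraMap_eq_smul_one]
  ext v
  simp only [add_sub_cancel]
  rfl

theorem norm_tm_left_le (a : H →L[ℂ] H) (z : H ⊗[ℂ] H) : ‖tm a 1 z‖ ≤ ‖a‖ * ‖z‖ := by
  obtain ⟨b, hb⟩ := exists_defect a
  have key : ((‖a‖ ^ 2 : ℝ) : ℂ) * ⟪z, z⟫_ℂ = ⟪tm a 1 z, tm a 1 z⟫_ℂ + ⟪tm b 1 z, tm b 1 z⟫_ℂ := by
    have e1 : ⟪tm a 1 z, tm a 1 z⟫_ℂ + ⟪tm b 1 z, tm b 1 z⟫_ℂ =
        ⟪z, tm (star a * a + star b * b) 1 z⟫_ℂ := by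
      rw [inner_tm, inner_tm, ← tm_mul, ← tm_mul, tm_add_left, inner_add_right]
      rw [star_one, one_mul]
    rw [e1, ← hb, tm_smul_left, tm_one_one]
    exact (inner_smul_right (𝕜 := ℂ) z z _).symm
  have h3 : ‖a‖ ^ 2 * ‖z‖ ^ 2 = ‖tm a 1 z‖ ^ 2 + ‖tm b 1 z‖ ^ 2 := by
    have := congrArg Complex.re key
    rw [Complex.re_ofReal_mul, Complex.add_re, reST, reST, reST] at this
    exact this
  refine abs_le_of_sq_le_sq' ?_ (by positivity) |>.2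
  rw [mul_pow]
  nlinarith [sq_nonneg ‖tm b 1 z‖]

theorem norm_tm_right_le (a : H →L[ℂ] H) (z : H ⊗[ℂ] H) : ‖tm 1 a z‖ ≤ ‖a‖ * ‖z‖ := by
  obtain ⟨b, hb⟩ := exists_defect a
  have key : ((‖a‖ ^ 2 : ℝ) : ℂ) * ⟪z, z⟫_ℂ = ⟪tm 1 a z, tm 1 a z⟫_ℂ + ⟪tm 1 b z, tm 1 b z⟫_ℂ := by
    have e1 : ⟪tm 1 a z, tm 1 a z⟫_ℂ + ⟪tm 1 b z, tm 1 b z⟫_ℂ =
        ⟪z, tm 1 (star a * a + star b * b) z⟫_ℂ := by
      rw [inner_tm, inner_tm, ← tm_mul, ← tm_mul, tm_add_right, inner_add_right]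
      rw [star_one, one_mul]
    rw [e1, ← hb, tm_smul_right, tm_one_one]
    exact (inner_smul_right (𝕜 := ℂ) z z _).symm
  have h3 : ‖a‖ ^ 2 * ‖z‖ ^ 2 = ‖tm 1 a z‖ ^ 2 + ‖tm 1 b z‖ ^ 2 := by
    have := congrArg Complex.re key
    rw [Complex.re_ofReal_mul, Complex.add_re, reST, reST, reST] at this
    exact this
  refine abs_le_of_sq_le_sq' ?_ (by positivity) |>.2
  rw [mul_pow]
  nlinarith [sq_nonneg ‖tm 1 b z‖]

theorem norm_tm_le (a b : H →L[ℂ] H) (z : H ⊗[ℂ] H) : ‖tm a b z‖ ≤ ‖a‖ * ‖b‖ * ‖z‖ := by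
  have h : tm a b z = tm a 1 (tm 1 b z) := by
    rw [← tm_mul]; simp
  rw [h]
  calc ‖tm a 1 (tm 1 b z)‖ ≤ ‖a‖ * ‖tm 1 b z‖ := norm_tm_left_le _ _
    _ ≤ ‖a‖ * (‖b‖ * ‖z‖) := by gcongr; exact norm_tm_right_le _ _
    _ = _ := by ring

theorem tm_sub_left (a a' b : H →L[ℂ] H) (z : H ⊗[ℂ] H) :
    tm (a - a') b z = tm a b z - tm a' b z := by
  rw [sub_eq_add_neg, tm_add_left, ← neg_one_smul ℂ a', tm_smul_left]; simp [sub_eq_add_neg]

theorem tm_sub_right (a b b' : H →L[ℂ] H) (z : H ⊗[ℂ] H) :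
    tm a (b - b') z = tm a b z - tm a b' z := by
  rw [sub_eq_add_neg, tm_add_right, ← neg_one_smul ℂ b', tm_smul_right]; simp [sub_eq_add_neg]

theorem tendsto_tm_left {a : ℕ → H →L[ℂ] H} {z : ℕ → H ⊗[ℂ] H} {a₀ : H →L[ℂ] H}
    {z₀ : H ⊗[ℂ] H} (ha : Tendsto a atTop (𝓝 a₀)) (hz : Tendsto z atTop (𝓝 z₀)) :
    Tendsto (fun n => tm (a n) 1 (z n)) atTop (𝓝 (tm a₀ 1 z₀)) := by
  rw [tendsto_iff_norm_sub_tendsto_zero]
  have h1 : Tendsto (fun n => ‖a n - a₀‖ * ‖z n‖ + ‖a₀‖ * ‖z n - z₀‖) atTop (𝓝 0) := by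
    have h2 := (tendsto_iff_norm_sub_tendsto_zero.mp ha).mul hz.norm
    have h3 := (tendsto_iff_norm_sub_tendsto_zero.mp hz).const_mul ‖a₀‖
    simpa using h2.add h3
  refine squeeze_zero (fun n => norm_nonneg _) (fun n => ?_) h1
  have h4 : tm (a n) 1 (z n) - tm a₀ 1 z₀ = tm (a n - a₀) 1 (z n) + tm a₀ 1 (z n - z₀) := by
    rw [tm_sub_left, map_sub]; abel
  rw [h4]
  exact (norm_add_le _ _).trans (add_le_add (norm_tm_left_le _ _) (norm_tm_left_le _ _))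

theorem tendsto_tm_right {a : ℕ → H →L[ℂ] H} {z : ℕ → H ⊗[ℂ] H} {a₀ : H →L[ℂ] H}
    {z₀ : H ⊗[ℂ] H} (ha : Tendsto a atTop (𝓝 a₀)) (hz : Tendsto z atTop (𝓝 z₀)) :
    Tendsto (fun n => tm 1 (a n) (z n)) atTop (𝓝 (tm 1 a₀ z₀)) := by
  rw [tendsto_iff_norm_sub_tendsto_zero]
  have h1 : Tendsto (fun n => ‖a n - a₀‖ * ‖z n‖ + ‖a₀‖ * ‖z n - z₀‖) atTop (𝓝 0) := by
    have h2 := (tendsto_iff_norm_sub_tendsto_zero.mp ha).mul hz.norm
    have h3 := (tendsto_iff_norm_sub_tendsto_zero.mp hz).const_mul ‖a₀‖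
    simpa using h2.add h3
  refine squeeze_zero (fun n => norm_nonneg _) (fun n => ?_) h1
  have h4 : tm 1 (a n) (z n) - tm 1 a₀ z₀ = tm 1 (a n - a₀) (z n) + tm 1 a₀ (z n - z₀) := by
    rw [tm_sub_right, map_sub]; abel
  rw [h4]
  exact (norm_add_le _ _).trans (add_le_add (norm_tm_right_le _ _) (norm_tm_right_le _ _))

end H203R3.FD
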