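import Pool.Agent.H203R3.FD.Eval

open scoped InnerProductSpace TensorProduct Topology
open Filter Polynomial

set_option linter.unusedSectionVars false

namespace H203R3.FD

variable {H : Type*} [NormedAddCommGroup H] [InnerProductSpace ℂ H] [CompleteSpace H]
variable {m : ℕ} {x : Fin m → H →L[ℂ] H} {Ω : H} {i₀ : Fin m}

theorem mem_W (i : Fin m) : x i ∈ WStar x :=
  Set.subset_centralizer_centralizer (Set.mem_range_self i)

theorem W_mul {a b : H →L[ℂ] H} (ha : a ∈ WStar x) (hb : b ∈ WStar x) : a * b ∈ WStar x :=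
  Set.mul_mem_centralizer ha hb

theorem W_add {a b : H →L[ℂ] H} (ha : a ∈ WStar x) (hb : b ∈ WStar x) : a + b ∈ WStar x :=
  Set.add_mem_centralizer ha hb

theorem W_smul {a : H →L[ℂ] H} (c : ℂ) (ha : a ∈ WStar x) : c • a ∈ WStar x := by
  intro b hb
  have := ha b hb
  rw [mul_smul_comm, this, smul_mul_assoc]

theorem W_one : (1 : H →L[ℂ] H) ∈ WStar x := Set.one_mem_centralizer

theorem W_pow {a : H →L[ℂ] H} (ha : a ∈ WStar x) (n : ℕ) : a ^ n ∈ WStar x := by
  induction n with
  | zero => rw [pow_zero]; exact W_one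
  | succ n ih => rw [pow_succ]; exact W_mul ih ha

theorem W_star (hs : ∀ i, IsSelfAdjoint (x i)) {a : H →L[ℂ] H} (ha : a ∈ WStar x) :
    star a ∈ WStar x := by
  have h1 : ∀ b ∈ Set.centralizer (Set.range x), star b ∈ Set.centralizer (Set.range x) := by
    intro b hb y hy
    obtain ⟨i, rfl⟩ := hy
    have := hb (x i) (Set.mem_range_self i)
    have h2 := congrArg star this
    rw [star_mul, star_mul, (hs i).star_eq] at h2
    exact h2.symm
  intro b hb
  have := ha (star b) (h1 b hb)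
  have h2 := congrArg star this
  rw [star_mul, star_mul, star_star] at h2
  exact h2.symm

theorem W_closed : IsClosed (WStar x) := Set.isClosed_centralizer _

theorem ev_mem_W (P : Poly m) : ev x P ∈ WStar x := by
  induction P using FreeAlgebra.induction with
  | grade0 r =>
    rw [AlgHom.commutes, Algebra.algebraMap_eq_smul_one]
    exact W_smul _ W_one
  | grade1 j => rw [ev_ι]; exact mem_W j
  | mul a b ha hb => rw [map_mul]; exact W_mul ha hb
  | add a b ha hb => rw [map_add]; exact W_add ha hb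

theorem Cl.mem_W {f : H →L[ℂ] H} {η : H ⊗[ℂ] H} (h : Cl x Ω i₀ f η) : f ∈ WStar x := by
  obtain ⟨p, hp, -⟩ := h
  refine W_closed.mem_of_tendsto hp (Eventually.of_forall fun n => ?_)
  rw [← ev_pf]
  exact ev_mem_W _

theorem norm_star_vec (hT : IsTracialTuple x Ω) {a : H →L[ℂ] H} (ha : a ∈ WStar x) :
    ‖star a Ω‖ = ‖a Ω‖ := by
  have h1 : ⟪star a Ω, star a Ω⟫_ℂ = ⟪a Ω, a Ω⟫_ℂ := by
    rw [ContinuousLinearMap.star_eq_adjoint, ContinuousLinearMap.adjoint_inner_left,
      ← ContinuousLinearMap.adjoint_inner_right, ← ContinuousLinearMap.star_eq_adjoint]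
    exact hT.trace a ha (star a) (W_star hT.selfAdjoint ha)
  have h2 := congrArg Complex.re h1
  rw [reS, reS] at h2
  exact (sq_eq_sq₀ (norm_nonneg _) (norm_nonneg _)).mp h2

theorem norm_mul_unitary_vec (hT : IsTracialTuple x Ω) {a V : H →L[ℂ] H} (ha : a ∈ WStar x)
    (hV : V ∈ WStar x) (hVV : V * star V = 1) : ‖a (V Ω)‖ = ‖a Ω‖ := by
  have h0 : star V * (star a * a) ∈ WStar x :=
    W_mul (W_star hT.selfAdjoint hV) (W_mul (W_star hT.selfAdjoint ha) ha)
  have h1 : ⟪a (V Ω), a (V Ω)⟫_ℂ = ⟪a Ω, a Ω⟫_ℂ := by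
    have e1 : ⟪a (V Ω), a (V Ω)⟫_ℂ = ⟪Ω, (star V * (star a * a)) (V Ω)⟫_ℂ := by
      simp only [mul_apply_eq_comp, ContinuousLinearMap.star_eq_adjoint,
        ContinuousLinearMap.adjoint_inner_right]
    rw [e1, hT.trace _ h0 V hV]
    have e2 : V ((star V * (star a * a)) Ω) = ((V * star V) * (star a * a)) Ω := by
      simp only [mul_apply_eq_comp]
    rw [e2, hVV, one_mul]
    simp only [mul_apply_eq_comp, ContinuousLinearMap.star_eq_adjoint,
        ContinuousLinearMap.adjoint_inner_right]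
  have h2 := congrArg Complex.re h1
  rw [reS, reS] at h2
  exact (sq_eq_sq₀ (norm_nonneg _) (norm_nonneg _)).mp h2

/-- moving the right factor by traciality -/
theorem inner_evT_right (hT : IsTracialTuple x Ω) (ξ : H) (Q : Poly m)
    (G : Poly m ⊗[ℂ] Poly m) :
    ⟪(ξ ⊗ₜ[ℂ] Ω : H ⊗[ℂ] H), evT x Ω (G * ((1 : Poly m) ⊗ₜ Q))⟫_ℂ =
      ⟪(ξ ⊗ₜ[ℂ] (star (ev x Q) Ω) : H ⊗[ℂ] H), evT x Ω G⟫_ℂ := by
  induction G using TensorProduct.induction_on with
  | zero => simp
  | add z₁ z₂ h₁ h₂ => rw [add_mul, map_add, map_add, inner_add_right, inner_add_right, h₁, h₂]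
  | tmul u v =>
    rw [Algebra.TensorProduct.tmul_mul_tmul, mul_one, evT_tmul, evT_tmul,
      TensorProduct.inner_tmul, TensorProduct.inner_tmul, map_mul, mul_apply_eq_comp,
      ContinuousLinearMap.star_eq_adjoint, ContinuousLinearMap.adjoint_inner_left,
      hT.trace _ (ev_mem_W v) _ (ev_mem_W Q)]

/-- The Cayley transform data. -/
structure Cay (X : H →L[ℂ] H) (l : ℝ) (R U : H →L[ℂ] H) : Prop where
  bd : ‖X‖ < |l|
  inv : R * (X - (Complex.I * l) • 1) = 1
  inv' : (X - (Complex.I * l) • 1) * R = 1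
  U_eq : U = 1 + (2 * Complex.I * l) • R

theorem Cay.exists (X : H →L[ℂ] H) {l : ℝ} (hl : ‖X‖ < |l|) : ∃ R U, Cay X l R U := by
  have hn : ‖(Complex.I * l : ℂ)‖ = |l| := by simp
  have h0 : IsUnit (X - (Complex.I * l : ℂ) • (1 : H →L[ℂ] H)) := by
    rcases subsingleton_or_nontrivial H with hsub | hnt
    · have : Subsingleton (H →L[ℂ] H) := inferInstance
      exact isUnit_of_subsingleton _
    · have h1 := spectrum.mem_resolventSet_of_norm_lt (𝕜 := ℂ) (a := X) (k := Complex.I * l)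
        (by rw [hn]; exact hl)
      have h2 : IsUnit (algebraMap ℂ (H →L[ℂ] H) (Complex.I * l) - X) := h1
      rw [Algebra.algebraMap_eq_smul_one] at h2
      have h3 := h2.neg
      rwa [neg_sub] at h3
  obtain ⟨u, hu⟩ := h0
  refine ⟨(u⁻¹ : (H →L[ℂ] H)ˣ), _, hl, ?_, ?_, rfl⟩
  · rw [← hu]; simp
  · rw [← hu]; simp

variable {X R U : H →L[ℂ] H} {l : ℝ}

theorem Cay.ne (h : Cay X l R U) : l ≠ 0 := by
  rintro rfl
  have := h.bd
  simp only [abs_zero] at this
  exact absurd (norm_nonneg _) (not_le.mpr this)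

theorem Cay.adj (h : Cay X l R U) (hX : IsSelfAdjoint X) :
    Cay X (-l) (star R) (star U) := by
  have e : star (X - (Complex.I * l : ℂ) • (1 : H →L[ℂ] H)) =
      X - (Complex.I * ((-l : ℝ) : ℂ)) • (1 : H →L[ℂ] H) := by
    rw [star_sub, star_smul, star_one, hX.star_eq]
    congr 2
    simp
  refine ⟨by rw [abs_neg]; exact h.bd, ?_, ?_, ?_⟩
  · rw [← e, ← star_mul, h.inv', star_one]
  · rw [← e, ← star_mul, h.inv, star_one]
  · rw [h.U_eq, star_add, star_one, star_smul]
    congr 2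
    simp

theorem Cay.res (h : Cay X l R U) (hX : IsSelfAdjoint X) :
    R - Star.star R = (2 * Complex.I * l) • (Star.star R * R) := by
  have h2 := (h.adj hX)
  have e1 : Star.star R * (X - (Complex.I * ((-l : ℝ) : ℂ)) • (1 : H →L[ℂ] H)) * R = R := by
    rw [h2.inv, one_mul]
  have e2 : Star.star R * ((X - (Complex.I * l : ℂ) • (1 : H →L[ℂ] H)) * R) = Star.star R := by
    rw [h.inv', mul_one]
  calc R - Star.star R = Star.star R * (X - (Complex.I * ((-l : ℝ) : ℂ)) • (1 : H →L[ℂ] H)) * R -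
        Star.star R * ((X - (Complex.I * l : ℂ) • (1 : H →L[ℂ] H)) * R) := by rw [e1, e2]
    _ = (2 * Complex.I * l) • (Star.star R * R) := by
      rw [mul_assoc, ← mul_sub, ← sub_mul]
      have : (X - (Complex.I * ((-l : ℝ) : ℂ)) • (1 : H →L[ℂ] H) -
        (X - (Complex.I * l : ℂ) • (1 : H →L[ℂ] H))) = (2 * Complex.I * l) • 1 := by
        rw [sub_sub_sub_cancel_left, ← sub_smul]
        congr 1
        push_cast; ring
      rw [this, smul_mul_assoc, one_mul, mul_smul_comm]

theorem Cay.res' (h : Cay X l R U) (hX : IsSelfAdjoint X) :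
    R - Star.star R = (2 * Complex.I * l) • (R * Star.star R) := by
  have h2 := (h.adj hX)
  have e1 : R * ((X - (Complex.I * ((-l : ℝ) : ℂ)) • (1 : H →L[ℂ] H)) * Star.star R) = R := by
    rw [h2.inv', mul_one]
  have e2 : R * ((X - (Complex.I * l : ℂ) • (1 : H →L[ℂ] H))) * Star.star R = Star.star R := by
    rw [h.inv, one_mul]
  calc R - Star.star R = R * ((X - (Complex.I * ((-l : ℝ) : ℂ)) • (1 : H →L[ℂ] H)) * Star.star R) -
        R * ((X - (Complex.I * l : ℂ) • (1 : H →L[ℂ] H))) * Star.star R := by rw [e1, e2]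
    _ = (2 * Complex.I * l) • (R * Star.star R) := by
      rw [mul_assoc R, ← mul_sub, ← sub_mul]
      have : (X - (Complex.I * ((-l : ℝ) : ℂ)) • (1 : H →L[ℂ] H) -
        (X - (Complex.I * l : ℂ) • (1 : H →L[ℂ] H))) = (2 * Complex.I * l) • 1 := by
        rw [sub_sub_sub_cancel_left, ← sub_smul]
        congr 1
        push_cast; ring
      rw [this, smul_mul_assoc, one_mul, mul_smul_comm]

theorem Cay.star_U (h : Cay X l R U) (hX : IsSelfAdjoint X) :
    Star.star U = 1 - (2 * Complex.I * l) • Star.star R := by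
  rw [(h.adj hX).U_eq, sub_eq_add_neg, ← neg_smul]
  congr 2
  push_cast; ring

theorem Cay.starU_mul_R (h : Cay X l R U) (hX : IsSelfAdjoint X) :
    Star.star U * R = Star.star R := by
  rw [h.star_U hX, sub_mul, one_mul, smul_mul_assoc, ← h.res hX]
  abel

theorem Cay.starU_mul_U (h : Cay X l R U) (hX : IsSelfAdjoint X) : Star.star U * U = 1 := by
  have h1 := h.starU_mul_R hX
  have h2 := h.star_U hX
  nth_rewrite 2 [h.U_eq]
  rw [mul_add, mul_one, mul_smul_comm, h1, h2]
  abel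

theorem Cay.U_mul_starU (h : Cay X l R U) (hX : IsSelfAdjoint X) : U * Star.star U = 1 := by
  rw [h.star_U hX, h.U_eq, mul_sub, mul_one, mul_smul_comm, add_mul, one_mul, smul_mul_assoc,
    ← h.res' hX]
  simp only [smul_add, smul_sub]
  abel

theorem Cay.comm (h : Cay X l R U) : U * R = R * U := by
  rw [h.U_eq, add_mul, mul_add, smul_mul_assoc, mul_smul_comm]; simp

theorem Cay.pow_comm (h : Cay X l R U) (n : ℕ) : U ^ n * R = R * U ^ n :=
  (Commute.pow_left (show Commute U R from h.comm) n).eq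

end H203R3.FD
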